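import Mathlib

/-!
# Coupled cell networks: admissible vector fields, synchrony patterns, rigidity, balance
-/

set_option autoImplicit false

namespace Pool.Agent.U603.Rig

/-- A network: finitely many nodes, finitely many arrows, each with a head and a tail node, a type
for every node and for every arrow; arrows of equal type have heads of equal type and tails of
equal type. (Multiple arrows and self-loops are allowed.) -/
structure Network where
  Node : Type
  Arrow : Type
  [finNode : Fintype Node]
  [finArrow : Fintype Arrow]
  NodeType : Type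
  ArrowType : Type
  nodeType : Node → NodeType
  arrowType : Arrow → ArrowType
  head : Arrow → Node
  tail : Arrow → Node
  head_type : ∀ a b, arrowType a = arrowType b → nodeType (head a) = nodeType (head b)
  tail_type : ∀ a b, arrowType a = arrowType b → nodeType (tail a) = nodeType (tail b)

attribute [instance] Network.finNode Network.finArrow

/-- The input set `I(c)`: the arrows with head `c`. -/
def Network.Input (G : Network) (c : G.Node) : Type := {a : G.Arrow // G.head a = c}

open Classical in
noncomputable instance (G : Network) (c : G.Node) : Fintype (G.Input c) :=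
  inferInstanceAs (Fintype {a : G.Arrow // G.head a = c})

/-- An input isomorphism from `c` to `d`: the nodes `c`, `d` have equal type, and `toEquiv` is a
type-preserving bijection `I(c) → I(d)`. -/
structure Network.InputIso (G : Network) (c d : G.Node) where
  nodeType_eq : G.nodeType c = G.nodeType d
  toEquiv : G.Input c ≃ G.Input d
  arrowType_eq : ∀ e : G.Input c, G.arrowType (toEquiv e).1 = G.arrowType e.1

/-- The tail node of an arrow of `I(c)`. -/
def Network.src (G : Network) {c : G.Node} (e : G.Input c) : G.Node := G.tail e.1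

/-- A choice of state spaces: every node type has a label, and the nodes with label `l` have the
state space `ℝ^(dim l)`. In particular nodes of equal type have the same state space. (Different
node types may or may not share a label; states are compared only for nodes with equal labels.) -/
structure StateSpaces (G : Network) where
  Label : Type
  label : G.NodeType → Label
  dim : Label → ℕ

variable {G : Network} (S : StateSpaces G)

/-- The state space `P_c` of the node `c`. -/
abbrev StateSpaces.St (c : G.Node) : Type :=
  EuclideanSpace ℝ (Fin (S.dim (S.label (G.nodeType c))))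

/-- The phase space `P = ∏_c P_c`. -/
abbrev StateSpaces.Phase : Type := ∀ c : G.Node, S.St c

/-- Equality of a state `u` of the node `c` and a state `v` of the node `d`: the two nodes have the
same state space and `u = v`. -/
def StateSpaces.Eqv {c d : G.Node} (u : S.St c) (v : S.St d) : Prop :=
  ∃ h : S.label (G.nodeType c) = S.label (G.nodeType d),
    ∀ i, u i = v (Fin.cast (congrArg S.dim h) i)

/-- Admissible vector fields: `f_c(x)` depends only on `x_c` and on the states at the tails of the
arrows in `I(c)`, and for every input isomorphism `β : I(c) → I(d)` the component `f_d` is `f_c`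
with the tail variables relabelled by `β`. -/
def StateSpaces.Admissible (f : S.Phase → S.Phase) : Prop :=
  (∀ (c : G.Node) (x y : S.Phase), x c = y c → (∀ e : G.Input c, x (G.src e) = y (G.src e)) →
    f x c = f y c) ∧
  ∀ (c d : G.Node) (β : G.InputIso c d) (x y : S.Phase), S.Eqv (x c) (y d) →
    (∀ e : G.Input c, S.Eqv (x (G.src e)) (y (G.src (β.toEquiv e)))) → S.Eqv (f x c) (f y d)

/-- The variables of `f_c`: the state of `c` and one state for every arrow of `I(c)`. -/
abbrev StateSpaces.Arg (c : G.Node) : Type := S.St c × (∀ e : G.Input c, S.St (G.src e))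

/-- Admissible vector fields, second reading (it differs from the first one only in networks with
multiple arrows or self-loops, where not all tuples of tail variables are realised by states):
`f_c(x) = F_c(x_c, (x_(tail e))_(e ∈ I(c)))` with functions `F_c` of class `C^1` on the whole
product `P_c × ∏_(e ∈ I(c)) P_(tail e)`, and `F_d` is `F_c` with the variables relabelled by `β`,
for every input isomorphism `β`. -/
def StateSpaces.ProductAdmissible (f : S.Phase → S.Phase) : Prop :=
  ∃ F : ∀ c : G.Node, S.Arg c → S.St c,
    (∀ c, ContDiff ℝ 1 (F c)) ∧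
    (∀ (x : S.Phase) (c : G.Node), f x c = F c (x c, fun e => x (G.src e))) ∧
    ∀ (c d : G.Node) (β : G.InputIso c d) (p : S.Arg c) (q : S.Arg d), S.Eqv p.1 q.1 →
      (∀ e : G.Input c, S.Eqv (p.2 e) (q.2 (β.toEquiv e))) → S.Eqv (F c p) (F d q)

section Orbits

variable {E : Type*} [NormedAddCommGroup E] [NormedSpace ℝ E]

/-- `x` is a non-constant `T`-periodic solution of `x' = f(x)`. -/
def IsPeriodicOrbit (f : E → E) (x : ℝ → E) (T : ℝ) : Prop :=
  0 < T ∧ (∀ t, HasDerivAt x (f (x t)) t) ∧ (∀ t, x (t + T) = x t) ∧ ∃ t, x t ≠ x 0

/-- The monodromy operator `M = Y(T)` of the linearisation `Y' = Df(x(t)) Y`, `Y(0) = 1`. -/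
def IsMonodromy (f : E → E) (x : ℝ → E) (T : ℝ) (M : E →L[ℝ] E) : Prop :=
  ∃ Y : ℝ → E →L[ℝ] E, Y 0 = ContinuousLinearMap.id ℝ E ∧
    (∀ t, HasDerivAt Y ((fderiv ℝ f (x t)).comp (Y t)) t) ∧ M = Y T

/-- The `T`-periodic orbit `x` is hyperbolic: `1` is a simple Floquet multiplier (a simple root of
the characteristic polynomial of the monodromy operator) and it is the only one on the complex unit
circle. -/
def IsHyperbolic [FiniteDimensional ℝ E] (f : E → E) (x : ℝ → E) (T : ℝ) : Prop :=
  ∃ M : E →L[ℝ] E, IsMonodromy f x T M ∧
    (M : E →ₗ[ℝ] E).charpoly.rootMultiplicity 1 = 1 ∧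
    ∀ z : ℂ, ‖z‖ = 1 → ((M : E →ₗ[ℝ] E).charpoly.map (algebraMap ℝ ℂ)).IsRoot z → z = 1

/-- `f'` is of class `C^1` and `δ`-close to `f` in the `C^1` norm. -/
def C1Close (δ : ℝ) (f f' : E → E) : Prop :=
  ContDiff ℝ 1 f' ∧ ∀ y, ‖f' y - f y‖ < δ ∧ ‖fderiv ℝ f' y - fderiv ℝ f y‖ < δ

/-- `x'` is a periodic orbit of `f'` which is `δ`-close to the `T`-periodic orbit `x`. -/
def IsNearbyOrbit (δ : ℝ) (x : ℝ → E) (T : ℝ) (f' : E → E) (x' : ℝ → E) : Prop :=
  ∃ T' : ℝ, IsPeriodicOrbit f' x' T' ∧ |T' - T| < δ ∧ ∀ t ∈ Set.Icc 0 T, ‖x' t - x t‖ < δ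

end Orbits

/-- `f` is a vector field of class `C^1` on the phase space and `x` is a hyperbolic `T`-periodic
orbit of `f`. -/
def StateSpaces.IsHyperbolicOrbit (f : S.Phase → S.Phase) (x : ℝ → S.Phase) (T : ℝ) : Prop :=
  ContDiff ℝ 1 f ∧ IsPeriodicOrbit f x T ∧ IsHyperbolic f x T

/-- The synchrony pattern of `x`: `x_c(t) = x_d(t)` for all `t`. -/
def StateSpaces.Sync (x : ℝ → S.Phase) (c d : G.Node) : Prop := ∀ t, S.Eqv (x t c) (x t d)

/-- Rigidity of the synchrony pattern of the periodic orbit `x` of `f`, within the class `Adm` of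
vector fields: for every field `f'` of class `C^1` in `Adm` which is sufficiently `C^1`-close to
`f`, the periodic orbits `x'` of `f'` close to `x` have all the synchronies of `x`. -/
def StateSpaces.IsRigid (Adm : (S.Phase → S.Phase) → Prop) (f : S.Phase → S.Phase)
    (x : ℝ → S.Phase) (T : ℝ) : Prop :=
  ∃ δ > 0, ∀ f' : S.Phase → S.Phase, Adm f' → C1Close δ f f' →
    ∀ x' : ℝ → S.Phase, IsNearbyOrbit δ x T f' x' → ∀ c d, S.Sync x c d → S.Sync x' c d

/-- Balanced relations on the nodes: related nodes `c`, `d` have an input isomorphism `β` such that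
the tails of `e` and `β(e)` are related for all `e ∈ I(c)`. -/
def IsBalanced (G : Network) (r : G.Node → G.Node → Prop) : Prop :=
  ∀ c d, r c d → ∃ β : G.InputIso c d, ∀ e : G.Input c, r (G.src e) (G.src (β.toEquiv e))

end Pool.Agent.U603.Rig
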