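import Mathlib

/-!
# Linear periodic systems: uniqueness, and the inhomogeneous periodic problem
-/

set_option autoImplicit false
set_option linter.unusedSectionVars false

namespace Pool.Agent.U603.Rig

open Set Filter Topology MeasureTheory intervalIntegral

/-- A curve with `‖u'‖ ≤ K ‖u‖` which vanishes once vanishes identically. -/
theorem eq_zero_of_deriv_le {F : Type*} [NormedAddCommGroup F] [NormedSpace ℝ F]
    {u u' : ℝ → F} {K t₀ : ℝ} (hu : ∀ t, HasDerivAt u (u' t) t)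
    (hb : ∀ t, ‖u' t‖ ≤ K * ‖u t‖) (h0 : u t₀ = 0) (t : ℝ) : u t = 0 := by
  have hc : Continuous u := continuous_iff_continuousAt.2 fun t => (hu t).continuousAt
  rcases le_total t₀ t with h | h
  · exact eq_zero_of_abs_deriv_le_mul_abs_self_of_eq_zero_right (f := u) (f' := u') (K := K)
      (a := t₀) (b := t) hc.continuousOn (fun s _ => (hu s).hasDerivWithinAt) h0
      (fun s _ => hb s) t ⟨h, le_rfl⟩
  · have hv : ∀ s, HasDerivAt (fun s => u (-s)) (-(u' (-s))) s := by
      intro s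
      have h1 := (hu (-s)).scomp s (hasDerivAt_neg s)
      simpa [Function.comp_def] using h1
    have := eq_zero_of_abs_deriv_le_mul_abs_self_of_eq_zero_right (f := fun s => u (-s))
      (f' := fun s => -(u' (-s))) (K := K)
      (a := -t₀) (b := -t) (hc.comp continuous_neg).continuousOn
      (fun s _ => (hv s).hasDerivWithinAt) (by simpa using h0)
      (fun s _ => by simpa using hb (-s)) (-t) ⟨by linarith, le_rfl⟩
    simpa using this

/-- A continuous periodic function is bounded. -/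
theorem periodic_bounded {F : Type*} [NormedAddCommGroup F] {u : ℝ → F} {T : ℝ} (hT : 0 < T)
    (hc : Continuous u) (hp : Function.Periodic u T) : ∃ K, 0 ≤ K ∧ ∀ t, ‖u t‖ ≤ K := by
  obtain ⟨K, hK⟩ := (isCompact_Icc (a := (0 : ℝ)) (b := T)).exists_bound_of_continuousOn
    hc.continuousOn
  refine ⟨K, (norm_nonneg _).trans (hK 0 ⟨le_rfl, hT.le⟩), fun t => ?_⟩
  obtain ⟨y, hy, hyt⟩ := hp.exists_mem_Ico₀ hT t
  rw [hyt]
  exact hK y ⟨hy.1, hy.2.le⟩

section Linear

variable {E : Type*} [NormedAddCommGroup E] [NormedSpace ℝ E] [FiniteDimensional ℝ E]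

/-- Surjectivity behind the persistence of the orbit: if `1` is a simple root of the characteristic
polynomial of `M` and `M w = w`, `w ≠ 0`, then `(y, τ) ↦ y - M y - τ w` is onto. -/
theorem surj_of_simple (M : E →ₗ[ℝ] E) (w : E) (hw : w ≠ 0) (hMw : M w = w)
    (h1 : M.charpoly.rootMultiplicity 1 = 1) (b : E) : ∃ (y : E) (τ : ℝ), y - M y - τ • w = b := by
  have hfin : Module.finrank ℝ (Module.End.maxGenEigenspace M 1) = 1 := by
    rw [LinearMap.finrank_maxGenEigenspace_eq, h1]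
  have hwm : w ∈ Module.End.maxGenEigenspace M 1 := by
    rw [Module.End.mem_maxGenEigenspace]
    exact ⟨1, by simp [hMw]⟩
  have hspan : ∀ v ∈ Module.End.maxGenEigenspace M 1, ∃ c : ℝ, c • w = v := by
    intro v hv
    obtain ⟨c, hc⟩ := exists_smul_eq_of_finrank_eq_one hfin (x := ⟨w, hwm⟩)
      (by simpa using hw) ⟨v, hv⟩
    exact ⟨c, by simpa using congrArg Subtype.val hc⟩
  let φ : E × ℝ →ₗ[ℝ] E := (LinearMap.id - M).comp (LinearMap.fst ℝ E ℝ) -
    (LinearMap.toSpanSingleton ℝ E w).comp (LinearMap.snd ℝ E ℝ)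
  have hφ : ∀ p : E × ℝ, φ p = p.1 - M p.1 - p.2 • w := fun p => by simp [φ]
  have hker : LinearMap.ker φ ≤ Submodule.span ℝ {((w, 0) : E × ℝ)} := by
    rintro ⟨y, τ⟩ hy
    rw [LinearMap.mem_ker, hφ] at hy
    simp only at hy
    have h2 : y - M y = τ • w := by rw [sub_eq_zero] at hy; exact hy
    have hym : y ∈ Module.End.maxGenEigenspace M 1 := by
      rw [Module.End.mem_maxGenEigenspace]
      refine ⟨2, ?_⟩
      have h3 : (M - (1 : ℝ) • (1 : Module.End ℝ E)) y = -(τ • w) := by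
        simp only [one_smul, LinearMap.sub_apply, Module.End.one_apply]
        rw [← h2]; abel
      rw [pow_two, Module.End.mul_apply, h3, map_neg, map_smul]
      simp [hMw]
    obtain ⟨c, hc⟩ := hspan y hym
    have h4 : τ • w = 0 := by
      rw [← h2, ← hc, map_smul, hMw, sub_self]
    have h5 : τ = 0 := by
      rcases smul_eq_zero.1 h4 with h | h
      · exact h
      · exact absurd h hw
    rw [Submodule.mem_span_singleton]
    exact ⟨c, by simp [hc, h5]⟩
  have hk1 : Module.finrank ℝ (LinearMap.ker φ) ≤ 1 := by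
    refine (Submodule.finrank_mono hker).trans ?_
    exact (finrank_span_le_card _).trans (by simp)
  have hrn := LinearMap.finrank_range_add_finrank_ker φ
  have hdim : Module.finrank ℝ (E × ℝ) = Module.finrank ℝ E + 1 := by
    rw [Module.finrank_prod]; simp
  have hr : Module.finrank ℝ (LinearMap.range φ) = Module.finrank ℝ E := by
    have := Submodule.finrank_le (LinearMap.range φ)
    omega
  have htop : LinearMap.range φ = ⊤ := Submodule.eq_top_of_finrank_eq hr
  obtain ⟨⟨y, τ⟩, hy⟩ := (LinearMap.range_eq_top.1 htop) b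
  exact ⟨y, τ, by rw [← hy, hφ]⟩

/-- Linear choice of the solutions in `surj_of_simple`. -/
theorem exists_right_inverse (M : E →L[ℝ] E) (w : E)
    (h : ∀ b : E, ∃ (y : E) (τ : ℝ), y - M y - τ • w = b) :
    ∃ (S : E →L[ℝ] E) (σ : E →L[ℝ] ℝ), ∀ b, S b - M (S b) - σ b • w = b := by
  let φ : E × ℝ →ₗ[ℝ] E := (LinearMap.id - M.toLinearMap).comp (LinearMap.fst ℝ E ℝ) -
    (LinearMap.toSpanSingleton ℝ E w).comp (LinearMap.snd ℝ E ℝ)
  have hφ : ∀ p : E × ℝ, φ p = p.1 - M p.1 - p.2 • w := fun p => by simp [φ]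
  have hs : LinearMap.range φ = ⊤ := by
    rw [LinearMap.range_eq_top]
    intro b
    obtain ⟨y, τ, hy⟩ := h b
    exact ⟨(y, τ), by rw [hφ]; exact hy⟩
  obtain ⟨ψ, hψ⟩ := φ.exists_rightInverse_of_surjective hs
  refine ⟨LinearMap.toContinuousLinearMap ((LinearMap.fst ℝ E ℝ).comp ψ),
    LinearMap.toContinuousLinearMap ((LinearMap.snd ℝ E ℝ).comp ψ), fun b => ?_⟩
  have h1 : φ (ψ b) = b := by
    have := congrArg (fun g => g b) hψ
    simpa using this
  rw [hφ] at h1
  simpa using h1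

/-- Data of the linearisation along a periodic orbit. -/
structure LinData (T : ℝ) (A : ℝ → E →L[ℝ] E) (X : ℝ → E) (Y : ℝ → E →L[ℝ] E) : Prop where
  pos : 0 < T
  contA : Continuous A
  perA : Function.Periodic A T
  perX : Function.Periodic X T
  derivX : ∀ t, HasDerivAt X (A t (X t)) t
  Y0 : Y 0 = ContinuousLinearMap.id ℝ E
  derivY : ∀ t, HasDerivAt Y ((A t).comp (Y t)) t
  nondeg : ∀ b : E, ∃ (y : E) (τ : ℝ), y - Y T y - τ • X 0 = b

namespace LinData

variable {T : ℝ} {A : ℝ → E →L[ℝ] E} {X : ℝ → E} {Y : ℝ → E →L[ℝ] E}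

theorem contY (D : LinData T A X Y) : Continuous Y :=
  continuous_iff_continuousAt.2 fun t => (D.derivY t).continuousAt

theorem contX (D : LinData T A X Y) : Continuous X :=
  continuous_iff_continuousAt.2 fun t => (D.derivX t).continuousAt

theorem isUnit_Y (D : LinData T A X Y) (t : ℝ) : IsUnit (Y t) := by
  obtain ⟨K, hK0, hK⟩ := periodic_bounded D.pos D.contA D.perA
  have hinj : Function.Injective (Y t) := by
    rw [injective_iff_map_eq_zero]
    intro v hv
    have h1 : ∀ s, HasDerivAt (fun s => Y s v) (A s (Y s v)) s := by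
      intro s
      have := (D.derivY s).clm_apply (hasDerivAt_const s v)
      simpa using this
    have h2 := eq_zero_of_deriv_le h1 (K := K) (fun s => ?_) hv 0
    · simpa [D.Y0] using h2
    · exact ((A s).le_opNorm _).trans (by gcongr; exact hK s)
  have hbij : Function.Bijective (Y t : E →ₗ[ℝ] E) :=
    ⟨hinj, LinearMap.injective_iff_surjective.1 hinj⟩
  let e := (LinearEquiv.ofBijective (Y t : E →ₗ[ℝ] E) hbij).toContinuousLinearEquiv
  refine ⟨⟨Y t, (e.symm : E →L[ℝ] E), ?_, ?_⟩, rfl⟩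
  · ext v
    exact e.apply_symm_apply v
  · ext v
    exact e.symm_apply_apply v

/-- the inverse of `Y` -/
noncomputable def Yi (Y : ℝ → E →L[ℝ] E) (t : ℝ) : E →L[ℝ] E := Ring.inverse (Y t)

theorem Y_Yi (D : LinData T A X Y) (t : ℝ) (v : E) : Y t (Yi Y t v) = v := by
  have h := Ring.mul_inverse_cancel (Y t) (D.isUnit_Y t)
  exact congrArg (fun g : E →L[ℝ] E => g v) h

theorem Yi_Y (D : LinData T A X Y) (t : ℝ) (v : E) : Yi Y t (Y t v) = v := by
  have h := Ring.inverse_mul_cancel (Y t) (D.isUnit_Y t)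
  exact congrArg (fun g : E →L[ℝ] E => g v) h

theorem cont_Yi (D : LinData T A X Y) : Continuous (Yi Y) := by
  rw [continuous_iff_continuousAt]
  intro t
  obtain ⟨u, hu⟩ := D.isUnit_Y t
  have h1 : ContinuousAt Ring.inverse (Y t) := by
    rw [← hu]
    exact NormedRing.inverse_continuousAt u
  exact h1.comp D.contY.continuousAt

theorem X_eq (D : LinData T A X Y) (t : ℝ) : X t = Y t (X 0) := by
  obtain ⟨K, hK0, hK⟩ := periodic_bounded D.pos D.contA D.perA
  have h1 : ∀ s, HasDerivAt (fun s => X s - Y s (X 0)) (A s (X s - Y s (X 0))) s := by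
    intro s
    have h2 := (D.derivY s).clm_apply (hasDerivAt_const s (X 0))
    have h3 := (D.derivX s).sub h2
    refine h3.congr_deriv ?_
    simp
  have h2 := eq_zero_of_deriv_le h1 (K := K) (t₀ := 0) (fun s => ?_) (by simp [D.Y0]) t
  · exact sub_eq_zero.1 h2
  · exact ((A s).le_opNorm _).trans (by gcongr; exact hK s)

/-- `∫_0^t Y(s)⁻¹ h(s) ds` -/
noncomputable def I (Y : ℝ → E →L[ℝ] E) (h : ℝ → E) (t : ℝ) : E := ∫ s in (0 : ℝ)..t, Yi Y s (h s)

/-- the solution of the periodic problem: component `τ` -/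
noncomputable def tau (T : ℝ) (Y : ℝ → E →L[ℝ] E) (σ : E →L[ℝ] ℝ) (h : ℝ → E) : ℝ :=
  σ (Y T (I Y h T)) / T

/-- the solution of the periodic problem: component `w` -/
noncomputable def W (T : ℝ) (X : ℝ → E) (Y : ℝ → E →L[ℝ] E) (S : E →L[ℝ] E) (σ : E →L[ℝ] ℝ)
    (h : ℝ → E) (t : ℝ) : E :=
  Y t (S (Y T (I Y h T)) + (t * tau T Y σ h) • X 0 + I Y h t)

variable {S : E →L[ℝ] E} {σ : E →L[ℝ] ℝ}

theorem I_cont (D : LinData T A X Y) {h : ℝ → E} (hc : Continuous h) :
    Continuous (fun s => Yi Y s (h s)) := D.cont_Yi.clm_apply hc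

theorem I_deriv (D : LinData T A X Y) {h : ℝ → E} (hc : Continuous h) (t : ℝ) :
    HasDerivAt (I Y h) (Yi Y t (h t)) t :=
  integral_hasDerivAt_right ((D.I_cont hc).intervalIntegrable _ _)
    ((D.I_cont hc).stronglyMeasurableAtFilter _ _) (D.I_cont hc).continuousAt

theorem I_sub (D : LinData T A X Y) {h k : ℝ → E} (hc : Continuous h) (kc : Continuous k) (t : ℝ) :
    I Y (fun s => h s - k s) t = I Y h t - I Y k t := by
  unfold I
  rw [← intervalIntegral.integral_sub ((D.I_cont hc).intervalIntegrable _ _)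
    ((D.I_cont kc).intervalIntegrable _ _)]
  simp

theorem tau_sub (D : LinData T A X Y) {h k : ℝ → E} (hc : Continuous h) (kc : Continuous k) :
    tau T Y σ (fun s => h s - k s) = tau T Y σ h - tau T Y σ k := by
  unfold tau
  rw [D.I_sub hc kc]
  simp [sub_div]

theorem W_sub (D : LinData T A X Y) {h k : ℝ → E} (hc : Continuous h) (kc : Continuous k) (t : ℝ) :
    W T X Y S σ (fun s => h s - k s) t = W T X Y S σ h t - W T X Y S σ k t := by
  unfold W
  rw [D.I_sub hc kc, D.I_sub hc kc, D.tau_sub hc kc, ← map_sub]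
  congr 1
  simp only [map_sub, mul_sub, sub_smul]
  abel

theorem W_deriv (D : LinData T A X Y) {h : ℝ → E} (hc : Continuous h) (t : ℝ) :
    HasDerivAt (W T X Y S σ h) (A t (W T X Y S σ h t) + tau T Y σ h • X t + h t) t := by
  have h1 : HasDerivAt (fun t => S (Y T (I Y h T)) + (t * tau T Y σ h) • X 0 + I Y h t)
      (tau T Y σ h • X 0 + Yi Y t (h t)) t := by
    have h2 : HasDerivAt (fun t : ℝ => (t * tau T Y σ h) • X 0) (tau T Y σ h • X 0) t := by
      have := ((hasDerivAt_id t).mul_const (tau T Y σ h)).smul_const (X 0)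
      simpa using this
    exact (h2.const_add _).add (D.I_deriv hc t)
  have h3 := (D.derivY t).clm_apply h1
  refine h3.congr_deriv ?_
  simp only [ContinuousLinearMap.comp_apply, map_add, map_smul, D.Y_Yi]
  rw [← D.X_eq t]
  unfold W
  simp only [map_add, map_smul]
  rw [← D.X_eq t]
  abel

theorem W_zero (D : LinData T A X Y) (h : ℝ → E) :
    W T X Y S σ h 0 = S (Y T (I Y h T)) := by
  unfold W
  simp [D.Y0, I]

theorem W_T (D : LinData T A X Y) (hS : ∀ b, S b - Y T (S b) - σ b • X 0 = b) (h : ℝ → E) :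
    W T X Y S σ h T = S (Y T (I Y h T)) := by
  have hX : Y T (X 0) = X 0 := by
    rw [← D.X_eq T]
    simpa using D.perX 0
  unfold W
  simp only [map_add, map_smul, hX]
  have h1 := hS (Y T (I Y h T))
  have h2 : T * tau T Y σ h = σ (Y T (I Y h T)) := by
    unfold tau
    field_simp [D.pos.ne']
  rw [h2]
  generalize Y T (I Y h T) = b at h1 ⊢
  have h3 : Y T (S b) + σ b • X 0 + (S b - Y T (S b) - σ b • X 0) = S b := by abel
  rw [h1] at h3
  exact h3

theorem W_periodic (D : LinData T A X Y) (hS : ∀ b, S b - Y T (S b) - σ b • X 0 = b) {h : ℝ → E}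
    (hc : Continuous h) (hp : Function.Periodic h T) : Function.Periodic (W T X Y S σ h) T := by
  obtain ⟨K, hK0, hK⟩ := periodic_bounded D.pos D.contA D.perA
  intro t
  have h1 : ∀ s, HasDerivAt (fun s => W T X Y S σ h (s + T) - W T X Y S σ h s)
      (A s (W T X Y S σ h (s + T) - W T X Y S σ h s)) s := by
    intro s
    have h2 := (D.W_deriv (S := S) (σ := σ) hc (s + T)).comp_add_const s T
    have h3 := h2.sub (D.W_deriv (S := S) (σ := σ) hc s)
    refine h3.congr_deriv ?_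
    rw [D.perA s, D.perX s, hp s]
    simp only [map_sub]
    abel
  have h2 := eq_zero_of_deriv_le h1 (K := K) (t₀ := 0) (fun s => ?_) ?_ t
  · exact sub_eq_zero.1 h2
  · exact ((A s).le_opNorm _).trans (by gcongr; exact hK s)
  · simp only [zero_add]
    rw [D.W_T hS, D.W_zero, sub_self]

/-- Solution of the periodic inhomogeneous problem with an `L¹` bound. -/
theorem solve (D : LinData T A X Y) : ∃ (C : ℝ) (Wm : (ℝ → E) → ℝ → E) (tm : (ℝ → E) → ℝ), 0 ≤ C ∧
    (∀ h : ℝ → E, Continuous h → Function.Periodic h T →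
      (∀ t, HasDerivAt (Wm h) (A t (Wm h t) + tm h • X t + h t) t) ∧
      Function.Periodic (Wm h) T) ∧
    (∀ h k : ℝ → E, Continuous h → Function.Periodic h T → Continuous k → Function.Periodic k T →
      (∀ t, ‖Wm h t - Wm k t‖ ≤ C * ∫ s in (0 : ℝ)..T, ‖h s - k s‖) ∧
      |tm h - tm k| ≤ C * ∫ s in (0 : ℝ)..T, ‖h s - k s‖) ∧
    (∀ t, Wm 0 t = 0) ∧ tm 0 = 0 := by
  obtain ⟨S, σ, hS⟩ := exists_right_inverse (Y T) (X 0) D.nondeg
  obtain ⟨K1, hK1⟩ := (isCompact_Icc (a := (0 : ℝ)) (b := T)).exists_bound_of_continuousOn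
    D.contY.continuousOn
  obtain ⟨K2, hK2⟩ := (isCompact_Icc (a := (0 : ℝ)) (b := T)).exists_bound_of_continuousOn
    D.cont_Yi.continuousOn
  have hT := D.pos
  have hK1' : 0 ≤ K1 := (norm_nonneg _).trans (hK1 0 ⟨le_rfl, hT.le⟩)
  have hK2' : 0 ≤ K2 := (norm_nonneg _).trans (hK2 0 ⟨le_rfl, hT.le⟩)
  -- basic bounds
  have hI : ∀ h : ℝ → E, Continuous h → ∀ t ∈ Icc (0 : ℝ) T,
      ‖I Y h t‖ ≤ K2 * ∫ s in (0 : ℝ)..T, ‖h s‖ := by
    intro h hc t ht
    have h1 : ‖I Y h t‖ ≤ ∫ s in (0 : ℝ)..t, ‖Yi Y s (h s)‖ :=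
      intervalIntegral.norm_integral_le_integral_norm ht.1
    have h2 : ∫ s in (0 : ℝ)..t, ‖Yi Y s (h s)‖ ≤ ∫ s in (0 : ℝ)..t, K2 * ‖h s‖ := by
      apply intervalIntegral.integral_mono_on ht.1
        ((D.I_cont hc).norm.intervalIntegrable _ _)
        ((continuous_const.mul hc.norm).intervalIntegrable _ _)
      intro s hs
      exact ((Yi Y s).le_opNorm _).trans
        (mul_le_mul_of_nonneg_right (hK2 s ⟨hs.1, hs.2.trans ht.2⟩) (norm_nonneg _))
    have h3 : ∫ s in (0 : ℝ)..t, K2 * ‖h s‖ = K2 * ∫ s in (0 : ℝ)..t, ‖h s‖ := by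
      rw [intervalIntegral.integral_const_mul]
    have h4 : ∫ s in (0 : ℝ)..t, ‖h s‖ ≤ ∫ s in (0 : ℝ)..T, ‖h s‖ := by
      apply intervalIntegral.integral_mono_interval le_rfl ht.1 ht.2
      · exact Filter.Eventually.of_forall fun s => norm_nonneg _
      · exact hc.norm.intervalIntegrable _ _
    calc ‖I Y h t‖ ≤ K2 * ∫ s in (0 : ℝ)..t, ‖h s‖ := by rw [← h3]; exact h1.trans h2
      _ ≤ K2 * ∫ s in (0 : ℝ)..T, ‖h s‖ := by gcongr
  have hb : ∀ h : ℝ → E, Continuous h →
      ‖Y T (I Y h T)‖ ≤ K1 * (K2 * ∫ s in (0 : ℝ)..T, ‖h s‖) := by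
    intro h hc
    refine ((Y T).le_opNorm _).trans ?_
    gcongr
    · exact hK1 T ⟨hT.le, le_rfl⟩
    · exact hI h hc T ⟨hT.le, le_rfl⟩
  have htau : ∀ h : ℝ → E, Continuous h →
      |tau T Y σ h| ≤ ‖σ‖ * K1 * K2 / T * ∫ s in (0 : ℝ)..T, ‖h s‖ := by
    intro h hc
    unfold tau
    rw [abs_div, abs_of_pos hT, div_le_iff₀ hT]
    have h1 : |σ (Y T (I Y h T))| ≤ ‖σ‖ * (K1 * (K2 * ∫ s in (0 : ℝ)..T, ‖h s‖)) := by
      have := σ.le_opNorm (Y T (I Y h T))
      rw [Real.norm_eq_abs] at this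
      refine this.trans ?_
      gcongr
      exact hb h hc
    refine h1.trans (le_of_eq ?_)
    field_simp
  have hW : ∀ h : ℝ → E, Continuous h → ∀ t ∈ Icc (0 : ℝ) T,
      ‖W T X Y S σ h t‖ ≤ K1 * (‖S‖ * K1 * K2 + ‖σ‖ * K1 * K2 * ‖X 0‖ + K2) *
        ∫ s in (0 : ℝ)..T, ‖h s‖ := by
    intro h hc t ht
    have hJ : 0 ≤ ∫ s in (0 : ℝ)..T, ‖h s‖ :=
      intervalIntegral.integral_nonneg hT.le fun s _ => norm_nonneg _
    unfold W
    refine ((Y t).le_opNorm _).trans ?_
    rw [mul_assoc]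
    refine mul_le_mul (hK1 t ht) ?_ (norm_nonneg _) hK1'
    refine (norm_add_le _ _).trans ?_
    rw [add_mul]
    refine add_le_add ?_ (hI h hc t ht)
    refine (norm_add_le _ _).trans ?_
    rw [add_mul]
    refine add_le_add ?_ ?_
    · refine (S.le_opNorm _).trans ?_
      have := hb h hc
      calc ‖S‖ * ‖Y T (I Y h T)‖ ≤ ‖S‖ * (K1 * (K2 * ∫ s in (0 : ℝ)..T, ‖h s‖)) := by gcongr
        _ = _ := by ring
    · rw [norm_smul, Real.norm_eq_abs, abs_mul, abs_of_nonneg ht.1]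
      have h1 := htau h hc
      calc t * |tau T Y σ h| * ‖X 0‖ ≤
          T * (‖σ‖ * K1 * K2 / T * ∫ s in (0 : ℝ)..T, ‖h s‖) * ‖X 0‖ := by
            gcongr
            exact ht.2
        _ = _ := by field_simp
  set C : ℝ := K1 * (‖S‖ * K1 * K2 + ‖σ‖ * K1 * K2 * ‖X 0‖ + K2) + ‖σ‖ * K1 * K2 / T with hC
  have hCa : 0 ≤ K1 * (‖S‖ * K1 * K2 + ‖σ‖ * K1 * K2 * ‖X 0‖ + K2) := by positivity
  have hCb : 0 ≤ ‖σ‖ * K1 * K2 / T := by positivity
  refine ⟨C, W T X Y S σ, tau T Y σ, by positivity, ?_, ?_, ?_, ?_⟩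
  · intro h hc hp
    exact ⟨D.W_deriv hc, D.W_periodic hS hc hp⟩
  · intro h k hc hp kc kp
    have hsc : Continuous fun s => h s - k s := hc.sub kc
    have hJ : 0 ≤ ∫ s in (0 : ℝ)..T, ‖h s - k s‖ :=
      intervalIntegral.integral_nonneg hT.le fun s _ => norm_nonneg _
    constructor
    · intro t
      have hper : Function.Periodic (W T X Y S σ (fun s => h s - k s)) T :=
        D.W_periodic hS hsc (fun s => by simp only [hp s, kp s])
      obtain ⟨y, hy, hyt⟩ := hper.exists_mem_Ico₀ hT t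
      rw [← D.W_sub hc kc, hyt]
      refine (hW _ hsc y ⟨hy.1, hy.2.le⟩).trans ?_
      gcongr
      rw [hC]; linarith
    · rw [← D.tau_sub hc kc]
      refine (htau _ hsc).trans ?_
      gcongr
      rw [hC]; linarith
  · intro t
    simp [W, I, tau]
  · simp [I, tau]

end LinData

end Linear

end Pool.Agent.U603.Rig
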