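import Mathlib
import Pool.Agent.U603.Rig.ODE

/-!
# Persistence of a nondegenerate periodic orbit, with an `L¹` Lipschitz estimate
-/

set_option autoImplicit false
set_option linter.unusedSectionVars false

namespace Pool.Agent.U603.Rig

open Set Filter Topology MeasureTheory intervalIntegral

variable {E : Type*} [NormedAddCommGroup E] [NormedSpace ℝ E] [FiniteDimensional ℝ E]

/-- `g` is `δ`-close to `f` in `C^1`. -/
def Close (δ : ℝ) (f g : E → E) : Prop :=
  ContDiff ℝ 1 g ∧ ∀ y, ‖g y - f y‖ ≤ δ ∧ ‖fderiv ℝ g y - fderiv ℝ f y‖ ≤ δ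

theorem unif_near {f : E → E} (hf : ContDiff ℝ 1 f) {x : ℝ → E} {R : ℝ} (hR : ∀ t, ‖x t‖ ≤ R)
    (κ : ℝ) (hκ : 0 < κ) : ∃ η, 0 < η ∧ ∀ t y, ‖y - x t‖ ≤ η →
      ‖fderiv ℝ f y - fderiv ℝ f (x t)‖ ≤ κ := by
  have hc : Continuous (fderiv ℝ f) := hf.continuous_fderiv (by norm_num)
  have hu := (isCompact_closedBall (0 : E) (R + 1)).uniformContinuousOn_of_continuous
    hc.continuousOn
  rw [Metric.uniformContinuousOn_iff] at hu
  obtain ⟨δ, hδ, h⟩ := hu κ hκ
  refine ⟨min (δ / 2) 1, by positivity, fun t y hy => ?_⟩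
  have h1 : ‖y - x t‖ ≤ δ / 2 := hy.trans (min_le_left _ _)
  have h2 : ‖y - x t‖ ≤ 1 := hy.trans (min_le_right _ _)
  have h3 := h y ?_ (x t) ?_ ?_
  · rw [dist_eq_norm] at h3
    exact h3.le
  · rw [mem_closedBall_zero_iff]
    calc ‖y‖ = ‖x t + (y - x t)‖ := by congr 1; abel
      _ ≤ ‖x t‖ + ‖y - x t‖ := norm_add_le _ _
      _ ≤ R + 1 := add_le_add (hR t) h2
  · rw [mem_closedBall_zero_iff]
    linarith [hR t]
  · rw [dist_eq_norm]
    linarith

/-- the nonlinear remainder -/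
noncomputable def Nf (a : E →L[ℝ] E) (f0 : E) (g : E → E) (x0 : E) (w : E) (τ : ℝ) : E :=
  (1 + τ) • g (x0 + w) - f0 - a w - τ • f0

theorem Nf_lip {a : E →L[ℝ] E} {f0 : E} {g : E → E} {x0 : E} {η κ K δ : ℝ}
    (hg : Differentiable ℝ g) (hκ : ∀ y, ‖y - x0‖ ≤ η → ‖fderiv ℝ g y - a‖ ≤ κ)
    (hδ : ‖g x0 - f0‖ ≤ δ) (hK : ‖a‖ ≤ K) {w1 w2 : E} {τ1 τ2 : ℝ} (hw1 : ‖w1‖ ≤ η)
    (hw2 : ‖w2‖ ≤ η) (h1 : |τ1| ≤ η) :
    ‖Nf a f0 g x0 w1 τ1 - Nf a f0 g x0 w2 τ2‖ ≤
      (κ + η * (K + κ)) * ‖w1 - w2‖ + (η * (K + κ) + δ) * |τ1 - τ2| := by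
  have hη : 0 ≤ η := (norm_nonneg _).trans hw1
  have hκ0 : 0 ≤ κ := (norm_nonneg _).trans (hκ x0 (by simpa using hη))
  have hK0 : 0 ≤ K := (norm_nonneg _).trans hK
  have mv : ∀ u v : E, ‖u‖ ≤ η → ‖v‖ ≤ η →
      ‖g (x0 + u) - g (x0 + v) - a (u - v)‖ ≤ κ * ‖u - v‖ := by
    intro u v hu hv
    have := (convex_closedBall x0 η).norm_image_sub_le_of_norm_fderiv_le' (𝕜 := ℝ) (f := g)
      (φ := a) (C := κ) (x := x0 + v) (y := x0 + u) (fun y _ => hg y)
      (fun y hy => hκ y (by rwa [mem_closedBall_iff_norm] at hy))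
      (by rw [mem_closedBall_iff_norm]; simpa using hv)
      (by rw [mem_closedBall_iff_norm]; simpa using hu)
    simpa using this
  have mv2 : ∀ u v : E, ‖u‖ ≤ η → ‖v‖ ≤ η →
      ‖g (x0 + u) - g (x0 + v)‖ ≤ (K + κ) * ‖u - v‖ := by
    intro u v hu hv
    have h2 := mv u v hu hv
    have h3 : ‖a (u - v)‖ ≤ K * ‖u - v‖ := (a.le_opNorm _).trans (by gcongr)
    calc ‖g (x0 + u) - g (x0 + v)‖ =
        ‖(g (x0 + u) - g (x0 + v) - a (u - v)) + a (u - v)‖ := by congr 1; abel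
      _ ≤ _ := norm_add_le _ _
      _ ≤ κ * ‖u - v‖ + K * ‖u - v‖ := add_le_add h2 h3
      _ = _ := by ring
  have e : Nf a f0 g x0 w1 τ1 - Nf a f0 g x0 w2 τ2 =
      (g (x0 + w1) - g (x0 + w2) - a (w1 - w2)) + τ1 • (g (x0 + w1) - g (x0 + w2)) +
      (τ1 - τ2) • ((g (x0 + w2) - g (x0 + 0)) + (g x0 - f0)) := by
    unfold Nf
    rw [add_zero, map_sub]
    module
  rw [e]
  have b1 := mv w1 w2 hw1 hw2
  have b2 : ‖τ1 • (g (x0 + w1) - g (x0 + w2))‖ ≤ η * ((K + κ) * ‖w1 - w2‖) := by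
    rw [norm_smul, Real.norm_eq_abs]
    exact mul_le_mul h1 (mv2 w1 w2 hw1 hw2) (norm_nonneg _) hη
  have b3 : ‖(τ1 - τ2) • ((g (x0 + w2) - g (x0 + 0)) + (g x0 - f0))‖ ≤
      |τ1 - τ2| * ((K + κ) * η + δ) := by
    rw [norm_smul, Real.norm_eq_abs]
    refine mul_le_mul_of_nonneg_left ?_ (abs_nonneg _)
    refine (norm_add_le _ _).trans (add_le_add ?_ hδ)
    have := mv2 w2 0 hw2 (by simpa using hη)
    rw [sub_zero] at this
    exact this.trans (by gcongr)
  calc _ ≤ _ := norm_add_le _ _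
    _ ≤ _ := add_le_add (norm_add_le _ _) le_rfl
    _ ≤ κ * ‖w1 - w2‖ + η * ((K + κ) * ‖w1 - w2‖) + |τ1 - τ2| * ((K + κ) * η + δ) :=
        add_le_add (add_le_add b1 b2) b3
    _ = _ := by ring

open BoundedContinuousFunction in
/-- Persistence of the periodic orbit for all `C^1`-close fields, and Lipschitz dependence with
respect to the `L¹` norm along the orbit. -/
theorem persist {f : E → E} (hf : ContDiff ℝ 1 f) {x : ℝ → E} {T : ℝ} {Y : ℝ → E →L[ℝ] E}
    (hx : ∀ t, HasDerivAt x (f (x t)) t) (hp : Function.Periodic x T)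
    (D : LinData T (fun t => fderiv ℝ f (x t)) (fun t => f (x t)) Y) (η₀ : ℝ) (hη₀ : 0 < η₀) :
    ∃ η δ C : ℝ, 0 < η ∧ η ≤ η₀ ∧ η ≤ 1 / 2 ∧ 0 < δ ∧ 0 ≤ C ∧
      ∃ (Z : (E → E) → ℝ → E) (Θ : (E → E) → ℝ),
      (∀ g, Close δ f g → |Θ g| ≤ η ∧ (∀ t, ‖Z g t - x t‖ ≤ η) ∧ Function.Periodic (Z g) T ∧
        ∀ t, HasDerivAt (Z g) ((1 + Θ g) • g (Z g t)) t) ∧
      (∀ g1 g2, Close δ f g1 → Close δ f g2 → ∀ t, ‖Z g1 t - Z g2 t‖ ≤
        C * ∫ s in (0 : ℝ)..T, ‖g1 (Z g2 s) - g2 (Z g2 s)‖) := by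
  have hT := D.pos
  have hxc : Continuous x := continuous_iff_continuousAt.2 fun t => (hx t).continuousAt
  obtain ⟨R, hR0, hR⟩ := periodic_bounded hT hxc hp
  obtain ⟨K, hK0, hK⟩ := periodic_bounded hT D.contA D.perA
  obtain ⟨C, Wm, tm, hC, hsol, hdiff, hW0, ht0⟩ := D.solve
  set q : ℝ := 1 / (16 * (C * T + 1)) with hq
  have hCT : 0 ≤ C * T := by positivity
  have hqpos : 0 < q := by positivity
  have hCq : C * T * (4 * q) ≤ 1 / 4 := by
    rw [hq]
    have h1 : C * T / (C * T + 1) ≤ 1 := by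
      rw [div_le_one (by positivity)]; linarith
    calc C * T * (4 * (1 / (16 * (C * T + 1)))) = (C * T / (C * T + 1)) / 4 := by
          field_simp; ring
      _ ≤ 1 / 4 := by linarith
  obtain ⟨η1, hη1, hnear⟩ := unif_near hf hR (q / 2) (by positivity)
  -- constants
  set η : ℝ := min (min η₀ (1 / 2)) (min η1 (q / (K + q))) with hη
  have hKq : 0 < K + q := by positivity
  have hηpos : 0 < η := by
    rw [hη]
    exact lt_min (lt_min hη₀ (by norm_num)) (lt_min hη1 (by positivity))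
  have hηη₀ : η ≤ η₀ := (min_le_left _ _).trans (min_le_left _ _)
  have hηhalf : η ≤ 1 / 2 := (min_le_left _ _).trans (min_le_right _ _)
  have hηη1 : η ≤ η1 := (min_le_right _ _).trans (min_le_left _ _)
  have hηK : η * (K + q) ≤ q := by
    have : η ≤ q / (K + q) := (min_le_right _ _).trans (min_le_right _ _)
    calc η * (K + q) ≤ q / (K + q) * (K + q) := by gcongr
      _ = q := by field_simp
  set δ : ℝ := min (q / 2) (η / (2 * (C * T + 1))) with hδdef
  have hδpos : 0 < δ := lt_min (by positivity) (by positivity)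
  have hδq : δ ≤ q / 2 := min_le_left _ _
  have hδη : C * T * δ ≤ η / 2 := by
    have h1 : δ ≤ η / (2 * (C * T + 1)) := min_le_right _ _
    calc C * T * δ ≤ (C * T + 1) * (η / (2 * (C * T + 1))) :=
          mul_le_mul (by linarith) h1 hδpos.le (by positivity)
      _ = η / 2 := by field_simp
  -- abbreviations
  set A : ℝ → E →L[ℝ] E := fun t => fderiv ℝ f (x t) with hA
  let N : (E → E) → (ℝ → E) → ℝ → ℝ → E := fun g w τ t => Nf (A t) (f (x t)) g (x t) (w t) τ
  have hNc : ∀ g, Close δ f g → ∀ w : ℝ → E, Continuous w → ∀ τ, Continuous (N g w τ) := by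
    intro g hg w hw τ
    have hgc : Continuous g := hg.1.continuous
    have hfc : Continuous f := hf.continuous
    simp only [N, Nf]
    have h1 : Continuous fun t => (A t) (w t) := D.contA.clm_apply hw
    fun_prop
  have hNp : ∀ g w τ, Function.Periodic w T → Function.Periodic (N g w τ) T := by
    intro g w τ hw t
    simp only [N, hA]
    rw [hp t, hw t]
  have hclose : ∀ g, Close δ f g → ∀ t y, ‖y - x t‖ ≤ η → ‖fderiv ℝ g y - A t‖ ≤ q := by
    intro g hg t y hy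
    have h1 := (hg.2 y).2
    have h2 := hnear t y (hy.trans hηη1)
    calc ‖fderiv ℝ g y - A t‖ = ‖(fderiv ℝ g y - fderiv ℝ f y) +
          (fderiv ℝ f y - fderiv ℝ f (x t))‖ := by congr 1; simp [hA]
      _ ≤ _ := norm_add_le _ _
      _ ≤ δ + q / 2 := add_le_add h1 h2
      _ ≤ q := by linarith
  -- pointwise Lipschitz bound
  have hNlip : ∀ g, Close δ f g → ∀ (w1 w2 : ℝ → E) (τ1 τ2 : ℝ) (d : ℝ),
      (∀ t, ‖w1 t‖ ≤ η) → (∀ t, ‖w2 t‖ ≤ η) → |τ1| ≤ η →
      (∀ t, ‖w1 t - w2 t‖ ≤ d) → |τ1 - τ2| ≤ d →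
      ∀ t, ‖N g w1 τ1 t - N g w2 τ2 t‖ ≤ 4 * q * d := by
    intro g hg w1 w2 τ1 τ2 d h1 h2 h3 h5 h6 t
    have h7 := Nf_lip (hg.1.differentiable (by norm_num)) (hclose g hg t) (hg.2 (x t)).1
      (hK t) (h1 t) (h2 t) h3 (τ2 := τ2)
    have hd : 0 ≤ d := (abs_nonneg _).trans h6
    refine h7.trans ?_
    calc (q + η * (K + q)) * ‖w1 t - w2 t‖ + (η * (K + q) + δ) * |τ1 - τ2|
        ≤ (q + q) * d + (q + q) * d := by
          have hηK0 : 0 ≤ η * (K + q) := by positivity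
          gcongr
          · exact h5 t
          · linarith
      _ = 4 * q * d := by ring
  -- the complete metric space
  let s : Set ((ℝ →ᵇ E) × ℝ) := {p | Function.Periodic p.1 T ∧ (∀ t, ‖p.1 t‖ ≤ η) ∧ |p.2| ≤ η}
  have hsclosed : IsClosed s := by
    have e : s = (⋂ t : ℝ, {p : (ℝ →ᵇ E) × ℝ | p.1 (t + T) = p.1 t}) ∩
        ((⋂ t : ℝ, {p : (ℝ →ᵇ E) × ℝ | ‖p.1 t‖ ≤ η}) ∩ {p : (ℝ →ᵇ E) × ℝ | |p.2| ≤ η}) := by
      ext p
      simp [s, Function.Periodic]
    have ev : ∀ t : ℝ, Continuous fun p : (ℝ →ᵇ E) × ℝ => p.1 t := fun t =>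
      (continuous_eval_const t).comp continuous_fst
    rw [e]
    refine IsClosed.inter (isClosed_iInter fun t => isClosed_eq (ev _) (ev _))
      (IsClosed.inter (isClosed_iInter fun t => isClosed_le (ev t).norm continuous_const)
        (isClosed_le (continuous_abs.comp continuous_snd) continuous_const))
  have : CompleteSpace s := hsclosed.isComplete.completeSpace_coe
  have : Nonempty s := ⟨⟨(0, 0), by
    refine ⟨fun t => by simp, fun t => by simpa using hηpos.le, by simpa using hηpos.le⟩⟩⟩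
  -- base point estimate
  have hbase : ∀ g, Close δ f g → ∀ t, ‖N g (fun _ => 0) 0 t‖ ≤ δ := by
    intro g hg t
    have := (hg.2 (x t)).1
    simpa [N, Nf] using this
  have hintc : ∀ (u : ℝ → E) (c : ℝ), Continuous u → (∀ t, ‖u t‖ ≤ c) →
      ∫ t in (0 : ℝ)..T, ‖u t‖ ≤ T * c := by
    intro u c hu hb
    have h1 : ∫ t in (0 : ℝ)..T, ‖u t‖ ≤ ∫ t in (0 : ℝ)..T, c :=
      intervalIntegral.integral_mono_on hT.le (hu.norm.intervalIntegrable _ _)
        (continuous_const.intervalIntegrable _ _) fun t _ => hb t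
    simpa using h1
  have hmap : ∀ g, Close δ f g → ∀ p ∈ s, (∀ t, ‖Wm (N g p.1 p.2) t‖ ≤ η) ∧
      |tm (N g p.1 p.2)| ≤ η := by
    intro g hg p hps
    obtain ⟨hp1, hp2, hp3⟩ := hps
    have c1 := hNc g hg p.1 p.1.continuous p.2
    have p1 := hNp g p.1 p.2 hp1
    have hz : Continuous (0 : ℝ → E) := continuous_const
    have hzp : Function.Periodic (0 : ℝ → E) T := fun t => rfl
    obtain ⟨d1, d2⟩ := hdiff (N g p.1 p.2) 0 c1 p1 hz hzp
    have hb : ∀ t, ‖N g p.1 p.2 t‖ ≤ 4 * q * η + δ := by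
      intro t
      have h1 := hNlip g hg p.1 (fun _ => 0) p.2 0 η hp2 (fun t => by simpa using hηpos.le) hp3
        (fun t => by simpa using hp2 t) (by simpa using hp3) t
      have h2 := hbase g hg t
      calc ‖N g p.1 p.2 t‖ = ‖(N g p.1 p.2 t - N g (fun _ => 0) 0 t) + N g (fun _ => 0) 0 t‖ := by
            congr 1; abel
        _ ≤ _ := norm_add_le _ _
        _ ≤ _ := add_le_add h1 h2
    have hJ : ∫ t in (0 : ℝ)..T, ‖N g p.1 p.2 t - (0 : ℝ → E) t‖ ≤ T * (4 * q * η + δ) := by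
      simp only [Pi.zero_apply, sub_zero]
      exact hintc _ _ c1 hb
    have hfin : C * (T * (4 * q * η + δ)) ≤ η := by
      have h1 : C * T * (4 * q * η) ≤ η / 4 := by
        have h0 : C * T * (4 * q) ≤ 1 / 4 := hCq
        calc C * T * (4 * q * η) = C * T * (4 * q) * η := by ring
          _ ≤ 1 / 4 * η := by gcongr
          _ = η / 4 := by ring
      calc C * (T * (4 * q * η + δ)) = C * T * (4 * q * η) + C * T * δ := by ring
        _ ≤ η / 4 + η / 2 := add_le_add h1 hδη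
        _ ≤ η := by linarith
    constructor
    · intro t
      have := d1 t
      rw [hW0, sub_zero] at this
      exact this.trans ((mul_le_mul_of_nonneg_left hJ hC).trans hfin)
    · rw [ht0, sub_zero] at d2
      exact d2.trans ((mul_le_mul_of_nonneg_left hJ hC).trans hfin)
  have hWcont : ∀ g, Close δ f g → ∀ p ∈ s, Continuous (Wm (N g p.1 p.2)) := by
    intro g hg p hps
    have h1 := (hsol _ (hNc g hg p.1 p.1.continuous p.2) (hNp g p.1 p.2 hps.1)).1
    exact continuous_iff_continuousAt.2 fun t => (h1 t).continuousAt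
  -- the fixed points
  have hfix : ∀ g, ∃ p : (ℝ →ᵇ E) × ℝ, Close δ f g → p ∈ s ∧
      (∀ t, p.1 t = Wm (N g p.1 p.2) t) ∧ p.2 = tm (N g p.1 p.2) := by
    intro g
    by_cases hg : Close δ f g
    swap
    · exact ⟨0, fun h => absurd h hg⟩
    let Φ : s → s := fun p =>
      ⟨(BoundedContinuousFunction.ofNormedAddCommGroup (Wm (N g p.1.1 p.1.2))
        (hWcont g hg p.1 p.2) η (hmap g hg p.1 p.2).1, tm (N g p.1.1 p.1.2)),
        ⟨(hsol _ (hNc g hg p.1.1 p.1.1.continuous p.1.2) (hNp g p.1.1 p.1.2 p.2.1)).2,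
          (hmap g hg p.1 p.2).1, (hmap g hg p.1 p.2).2⟩⟩
    have hΦ : ContractingWith (1 / 4 : NNReal) Φ := by
      refine ⟨?_, LipschitzWith.of_dist_le_mul fun p p' => ?_⟩
      · rw [← NNReal.coe_lt_coe]
        norm_num
      · have hd0 : 0 ≤ dist p p' := dist_nonneg
        have hd1 : ∀ t, ‖p.1.1 t - p'.1.1 t‖ ≤ dist p p' := by
          intro t
          rw [← dist_eq_norm]
          refine (BoundedContinuousFunction.dist_coe_le_dist t).trans ?_
          rw [Subtype.dist_eq, Prod.dist_eq]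
          exact le_max_left _ _
        have hd2 : |p.1.2 - p'.1.2| ≤ dist p p' := by
          rw [← Real.dist_eq, Subtype.dist_eq, Prod.dist_eq]
          exact le_max_right _ _
        have hN := hNlip g hg p.1.1 p'.1.1 p.1.2 p'.1.2 (dist p p') p.2.2.1 p'.2.2.1 p.2.2.2 hd1 hd2
        have c1 := hNc g hg p.1.1 p.1.1.continuous p.1.2
        have p1 := hNp g p.1.1 p.1.2 p.2.1
        have c2 := hNc g hg p'.1.1 p'.1.1.continuous p'.1.2
        have p2 := hNp g p'.1.1 p'.1.2 p'.2.1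
        obtain ⟨d1, d2⟩ := hdiff _ _ c1 p1 c2 p2
        have hJ := hintc _ _ (c1.sub c2) hN
        have hfin : C * (T * (4 * q * dist p p')) ≤ 1 / 4 * dist p p' := by
          calc C * (T * (4 * q * dist p p')) = C * T * (4 * q) * dist p p' := by ring
            _ ≤ 1 / 4 * dist p p' := by gcongr
        have hcoe : ((1 / 4 : NNReal) : ℝ) = 1 / 4 := by norm_num
        rw [hcoe, Subtype.dist_eq, Prod.dist_eq]
        refine max_le ?_ ?_
        · rw [BoundedContinuousFunction.dist_le (by positivity)]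
          intro t
          rw [dist_eq_norm]
          exact ((d1 t).trans (mul_le_mul_of_nonneg_left hJ hC)).trans hfin
        · rw [Real.dist_eq]
          exact (d2.trans (mul_le_mul_of_nonneg_left hJ hC)).trans hfin
    have hfp := hΦ.fixedPoint_isFixedPt
    set p := ContractingWith.fixedPoint Φ hΦ with hpdef
    refine ⟨p.1, fun _ => ⟨p.2, fun t => ?_, ?_⟩⟩
    · have h1 := congrArg (fun r : s => r.1.1 t) hfp
      exact h1.symm
    · have h1 := congrArg (fun r : s => r.1.2) hfp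
      exact h1.symm
  choose P hP using hfix
  refine ⟨η, δ, 4 * C, hηpos, hηη₀, hηhalf, hδpos, by positivity,
    fun g t => x t + (P g).1 t, fun g => (P g).2, ?_, ?_⟩
  · intro g hg
    obtain ⟨hps, h1, h2⟩ := hP g hg
    refine ⟨hps.2.2, fun t => by simpa using hps.2.1 t, fun t => ?_, fun t => ?_⟩
    · show x (t + T) + (P g).1 (t + T) = x t + (P g).1 t
      rw [hp t, hps.1 t]
    · have h3 := (hsol _ (hNc g hg (P g).1 (P g).1.continuous (P g).2)
        (hNp g (P g).1 (P g).2 hps.1)).1 t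
      have e1 : Wm (N g (P g).1 (P g).2) = (P g).1 := by
        funext t; exact (h1 t).symm
      rw [e1, ← h2] at h3
      refine ((hx t).add h3).congr_deriv ?_
      simp only [N, Nf, hA]
      module
  · intro g1 g2 hg1 hg2 t
    obtain ⟨hs1, h1, h2⟩ := hP g1 hg1
    obtain ⟨hs2, k1, k2⟩ := hP g2 hg2
    set J := ∫ s in (0 : ℝ)..T, ‖g1 (x s + (P g2).1 s) - g2 (x s + (P g2).1 s)‖ with hJdef
    set d := dist (P g1) (P g2) with hd
    have hd0 : 0 ≤ d := dist_nonneg
    have hd1 : ∀ t, ‖(P g1).1 t - (P g2).1 t‖ ≤ d := by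
      intro t
      rw [← dist_eq_norm]
      refine (BoundedContinuousFunction.dist_coe_le_dist t).trans ?_
      rw [hd, Prod.dist_eq]
      exact le_max_left _ _
    have hd2 : |(P g1).2 - (P g2).2| ≤ d := by
      rw [← Real.dist_eq, hd, Prod.dist_eq]
      exact le_max_right _ _
    have c1 := hNc g1 hg1 (P g1).1 (P g1).1.continuous (P g1).2
    have p1 := hNp g1 (P g1).1 (P g1).2 hs1.1
    have c2 := hNc g2 hg2 (P g2).1 (P g2).1.continuous (P g2).2
    have p2 := hNp g2 (P g2).1 (P g2).2 hs2.1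
    obtain ⟨d1, d2⟩ := hdiff _ _ c1 p1 c2 p2
    have hpt : ∀ s, ‖N g1 (P g1).1 (P g1).2 s - N g2 (P g2).1 (P g2).2 s‖ ≤
        4 * q * d + 2 * ‖g1 (x s + (P g2).1 s) - g2 (x s + (P g2).1 s)‖ := by
      intro s
      have e1 := hNlip g1 hg1 (P g1).1 (P g2).1 (P g1).2 (P g2).2 d hs1.2.1 hs2.2.1 hs1.2.2
        hd1 hd2 s
      have e2 : N g1 (P g2).1 (P g2).2 s - N g2 (P g2).1 (P g2).2 s =
          (1 + (P g2).2) • (g1 (x s + (P g2).1 s) - g2 (x s + (P g2).1 s)) := by
        simp only [N, Nf]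
        module
      have e3 : ‖N g1 (P g2).1 (P g2).2 s - N g2 (P g2).1 (P g2).2 s‖ ≤
          2 * ‖g1 (x s + (P g2).1 s) - g2 (x s + (P g2).1 s)‖ := by
        rw [e2, norm_smul, Real.norm_eq_abs]
        gcongr
        calc |1 + (P g2).2| ≤ |1| + |(P g2).2| := abs_add_le _ _
          _ ≤ 1 + 1 / 2 := by rw [abs_one]; linarith [hs2.2.2]
          _ ≤ 2 := by norm_num
      calc ‖N g1 (P g1).1 (P g1).2 s - N g2 (P g2).1 (P g2).2 s‖ =
            ‖(N g1 (P g1).1 (P g1).2 s - N g1 (P g2).1 (P g2).2 s) +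
              (N g1 (P g2).1 (P g2).2 s - N g2 (P g2).1 (P g2).2 s)‖ := by congr 1; abel
        _ ≤ _ := norm_add_le _ _
        _ ≤ _ := add_le_add e1 e3
    have hzc : Continuous fun s => g1 (x s + (P g2).1 s) - g2 (x s + (P g2).1 s) := by
      have := hg1.1.continuous
      have := hg2.1.continuous
      have := (P g2).1.continuous
      fun_prop
    have hint : ∫ s in (0 : ℝ)..T, ‖N g1 (P g1).1 (P g1).2 s - N g2 (P g2).1 (P g2).2 s‖ ≤
        T * (4 * q * d) + 2 * J := by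
      have h5 : ∫ s in (0 : ℝ)..T, ‖N g1 (P g1).1 (P g1).2 s - N g2 (P g2).1 (P g2).2 s‖ ≤
          ∫ s in (0 : ℝ)..T, (4 * q * d +
            2 * ‖g1 (x s + (P g2).1 s) - g2 (x s + (P g2).1 s)‖) :=
        intervalIntegral.integral_mono_on hT.le ((c1.sub c2).norm.intervalIntegrable _ _)
          ((continuous_const.add (continuous_const.mul hzc.norm)).intervalIntegrable _ _)
          fun s _ => hpt s
      refine h5.trans (le_of_eq ?_)
      have hc2 : Continuous fun s => 2 * ‖g1 (x s + (P g2).1 s) - g2 (x s + (P g2).1 s)‖ :=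
        continuous_const.mul hzc.norm
      have hc3 : Continuous fun _ : ℝ => 4 * q * d := continuous_const
      have h6 := intervalIntegral.integral_add (hc3.intervalIntegrable (μ := volume) 0 T)
        (hc2.intervalIntegrable (μ := volume) 0 T)
      rw [h6, intervalIntegral.integral_const_mul]
      simp [hJdef]
      ring
    have hJ0 : 0 ≤ J := intervalIntegral.integral_nonneg hT.le fun s _ => norm_nonneg _
    have hfin : C * (T * (4 * q * d) + 2 * J) ≤ 1 / 4 * d + 2 * C * J := by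
      calc C * (T * (4 * q * d) + 2 * J) = C * T * (4 * q) * d + 2 * C * J := by ring
        _ ≤ _ := by gcongr
    have hdd : d ≤ 1 / 4 * d + 2 * C * J := by
      have hbound := (mul_le_mul_of_nonneg_left hint hC).trans hfin
      rw [hd, Prod.dist_eq]
      refine max_le ?_ ?_
      · rw [BoundedContinuousFunction.dist_le (by positivity)]
        intro t
        rw [dist_eq_norm, h1 t, k1 t]
        rw [hd, Prod.dist_eq] at hbound
        exact (d1 t).trans hbound
      · rw [Real.dist_eq]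
        nth_rewrite 1 [h2, k2]
        rw [hd, Prod.dist_eq] at hbound
        exact d2.trans hbound
    have hCJ : 0 ≤ C * J := by positivity
    have : d ≤ 4 * C * J := by nlinarith
    calc ‖x t + (P g1).1 t - (x t + (P g2).1 t)‖ = ‖(P g1).1 t - (P g2).1 t‖ := by congr 1; abel
      _ ≤ d := hd1 t
      _ ≤ 4 * C * J := this

end Pool.Agent.U603.Rig
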