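import Mathlib

/-!
# Bounded `C^1` functions with bounded derivative
-/

set_option autoImplicit false
set_option linter.unusedSectionVars false

namespace Pool.Agent.U603.Rig

open Set Filter Topology

variable {E F F' : Type*} [NormedAddCommGroup E] [NormedSpace ℝ E] [NormedAddCommGroup F]
  [NormedSpace ℝ F] [NormedAddCommGroup F'] [NormedSpace ℝ F']

/-- bounded functions of class `C^1` with bounded derivative -/
structure BC1 (h : E → F) : Prop where
  smooth : ContDiff ℝ 1 h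
  bdd : ∃ K, ∀ y, ‖h y‖ ≤ K ∧ ‖fderiv ℝ h y‖ ≤ K

namespace BC1

theorem diff {h : E → F} (H : BC1 h) (y : E) : DifferentiableAt ℝ h y :=
  (H.smooth.differentiable (by norm_num)) y

theorem const (c : F) : BC1 (fun _ : E => c) :=
  ⟨contDiff_const, ‖c‖, fun y => ⟨le_rfl, by simp⟩⟩

theorem add {h k : E → F} (H : BC1 h) (K : BC1 k) : BC1 (fun y => h y + k y) := by
  obtain ⟨A, hA⟩ := H.bdd
  obtain ⟨B, hB⟩ := K.bdd
  refine ⟨H.smooth.add K.smooth, A + B, fun y => ⟨?_, ?_⟩⟩
  · exact (norm_add_le _ _).trans (add_le_add (hA y).1 (hB y).1)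
  · have : fderiv ℝ (fun y => h y + k y) y = fderiv ℝ h y + fderiv ℝ k y :=
      fderiv_fun_add (H.diff y) (K.diff y)
    rw [this]
    exact (norm_add_le _ _).trans (add_le_add (hA y).2 (hB y).2)

theorem const_smul {h : E → F} (H : BC1 h) (c : ℝ) : BC1 (fun y => c • h y) := by
  obtain ⟨A, hA⟩ := H.bdd
  refine ⟨contDiff_const.smul H.smooth, |c| * A, fun y => ⟨?_, ?_⟩⟩
  · rw [norm_smul, Real.norm_eq_abs]
    exact mul_le_mul_of_nonneg_left (hA y).1 (abs_nonneg _)
  · have : fderiv ℝ (fun y => c • h y) y = c • fderiv ℝ h y := fderiv_fun_const_smul (H.diff y) c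
    rw [this, norm_smul, Real.norm_eq_abs]
    exact mul_le_mul_of_nonneg_left (hA y).2 (abs_nonneg _)

theorem neg {h : E → F} (H : BC1 h) : BC1 (fun y => -h y) := by
  have := H.const_smul (-1)
  simpa using this

theorem sub {h k : E → F} (H : BC1 h) (K : BC1 k) : BC1 (fun y => h y - k y) := by
  have := H.add K.neg
  simpa [sub_eq_add_neg] using this

theorem sum {ι : Type*} (s : Finset ι) {h : ι → E → F} (H : ∀ i ∈ s, BC1 (h i)) :
    BC1 (fun y => ∑ i ∈ s, h i y) := by
  classical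
  induction s using Finset.induction_on with
  | empty => simpa using const (E := E) (0 : F)
  | insert i s hi ih =>
    have h1 := (H i (Finset.mem_insert_self i s)).add
      (ih fun j hj => H j (Finset.mem_insert_of_mem hj))
    simpa [Finset.sum_insert hi] using h1

theorem mul {h k : E → ℝ} (H : BC1 h) (K : BC1 k) : BC1 (fun y => h y * k y) := by
  obtain ⟨A, hA⟩ := H.bdd
  obtain ⟨B, hB⟩ := K.bdd
  refine ⟨H.smooth.mul K.smooth, A * B + B * A + A * B, fun y => ?_⟩
  have hA0 : 0 ≤ A := (norm_nonneg _).trans (hA y).1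
  have hB0 : 0 ≤ B := (norm_nonneg _).trans (hB y).1
  refine ⟨?_, ?_⟩
  · rw [norm_mul]
    have : ‖h y‖ * ‖k y‖ ≤ A * B := mul_le_mul (hA y).1 (hB y).1 (norm_nonneg _) hA0
    nlinarith [mul_nonneg hA0 hB0]
  · have e : fderiv ℝ (fun y => h y * k y) y = h y • fderiv ℝ k y + k y • fderiv ℝ h y :=
      fderiv_fun_mul (H.diff y) (K.diff y)
    rw [e]
    refine (norm_add_le _ _).trans ?_
    rw [norm_smul, norm_smul]
    have h1 : ‖h y‖ * ‖fderiv ℝ k y‖ ≤ A * B := mul_le_mul (hA y).1 (hB y).2 (norm_nonneg _) hA0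
    have h2 : ‖k y‖ * ‖fderiv ℝ h y‖ ≤ B * A := mul_le_mul (hB y).1 (hA y).2 (norm_nonneg _) hB0
    nlinarith [mul_nonneg hA0 hB0]

theorem prod {ι : Type*} (s : Finset ι) {h : ι → E → ℝ} (H : ∀ i ∈ s, BC1 (h i)) :
    BC1 (fun y => ∏ i ∈ s, h i y) := by
  classical
  induction s using Finset.induction_on with
  | empty => simpa using const (E := E) (1 : ℝ)
  | insert i s hi ih =>
    have h1 := (H i (Finset.mem_insert_self i s)).mul
      (ih fun j hj => H j (Finset.mem_insert_of_mem hj))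
    simpa [Finset.prod_insert hi] using h1

theorem smul_vec {h : E → ℝ} (H : BC1 h) (v : F) : BC1 (fun y => h y • v) := by
  obtain ⟨A, hA⟩ := H.bdd
  refine ⟨H.smooth.smul contDiff_const, A * ‖v‖, fun y => ⟨?_, ?_⟩⟩
  · rw [norm_smul]
    exact mul_le_mul_of_nonneg_right (hA y).1 (norm_nonneg _)
  · have e : HasFDerivAt (fun y => h y • v) ((fderiv ℝ h y).smulRight v) y :=
      (H.diff y).hasFDerivAt.smul_const v
    rw [e.fderiv, ContinuousLinearMap.norm_smulRight_apply]
    exact mul_le_mul_of_nonneg_right (hA y).2 (norm_nonneg _)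

theorem comp_clm {h : F → F'} (H : BC1 h) (L : E →L[ℝ] F) : BC1 (fun y => h (L y)) := by
  obtain ⟨A, hA⟩ := H.bdd
  have hA0 : 0 ≤ A := (norm_nonneg _).trans (hA 0).1
  refine ⟨H.smooth.comp L.contDiff, A + A * ‖L‖, fun y => ⟨?_, ?_⟩⟩
  · have := (hA (L y)).1
    have : 0 ≤ A * ‖L‖ := by positivity
    linarith
  · have e : HasFDerivAt (fun y => h (L y)) ((fderiv ℝ h (L y)).comp L) y :=
      (H.diff (L y)).hasFDerivAt.comp y L.hasFDerivAt
    rw [e.fderiv]
    have h1 := ContinuousLinearMap.opNorm_comp_le (fderiv ℝ h (L y)) L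
    have h2 : ‖fderiv ℝ h (L y)‖ * ‖L‖ ≤ A * ‖L‖ :=
      mul_le_mul_of_nonneg_right (hA (L y)).2 (norm_nonneg _)
    linarith

theorem pi {ι : Type*} [Fintype ι] {Fi : ι → Type*} [∀ i, NormedAddCommGroup (Fi i)]
    [∀ i, NormedSpace ℝ (Fi i)] {h : E → ∀ i, Fi i} (H : ∀ i, BC1 (fun y => h y i)) : BC1 h := by
  choose A hA using fun i => (H i).bdd
  have hA0 : ∀ i, 0 ≤ A i := fun i => (norm_nonneg _).trans (hA i 0).1
  have hle : ∀ i, A i ≤ ∑ j, A j := fun i =>
    Finset.single_le_sum (fun j _ => hA0 j) (Finset.mem_univ i)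
  have hs : 0 ≤ ∑ j, A j := Finset.sum_nonneg fun j _ => hA0 j
  refine ⟨contDiff_pi.2 fun i => (H i).smooth, ∑ j, A j, fun y => ⟨?_, ?_⟩⟩
  · rw [pi_norm_le_iff_of_nonneg hs]
    exact fun i => (hA i y).1.trans (hle i)
  · have e : HasFDerivAt h (ContinuousLinearMap.pi fun i => fderiv ℝ (fun y => h y i) y) y :=
      hasFDerivAt_pi.2 fun i => ((H i).diff y).hasFDerivAt
    rw [e.fderiv]
    refine ContinuousLinearMap.opNorm_le_bound _ hs fun u => ?_
    rw [pi_norm_le_iff_of_nonneg (by positivity)]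
    intro i
    refine ((fderiv ℝ (fun y => h y i) y).le_opNorm u).trans ?_
    exact mul_le_mul_of_nonneg_right ((hA i y).2.trans (hle i)) (norm_nonneg _)

theorem of_compact {h : E → ℝ} (hs : ContDiff ℝ 1 h) (hc : HasCompactSupport h) : BC1 h := by
  obtain ⟨A, hA⟩ := hs.continuous.bounded_above_of_compact_support hc
  obtain ⟨B, hB⟩ := (hs.continuous_fderiv (by norm_num)).bounded_above_of_compact_support
    (hc.fderiv (𝕜 := ℝ))
  exact ⟨hs, max A B, fun y => ⟨(hA y).trans (le_max_left _ _), (hB y).trans (le_max_right _ _)⟩⟩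

end BC1

end Pool.Agent.U603.Rig
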