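import Mathlib
import Pool.Agent.U603.Rig.Defs
import Pool.Agent.U603.Rig.BC1

/-!
# Transport of states, pull back of input variables, admissible bump fields
-/

set_option autoImplicit false
set_option linter.unusedSectionVars false

namespace Pool.Agent.U603.Rig

open Set Filter Topology

namespace Network

variable {G : Network}

theorem src_type {c d : G.Node} (β : G.InputIso c d) (e : G.Input c) :
    G.nodeType (G.src e) = G.nodeType (G.src (β.toEquiv e)) :=
  G.tail_type _ _ (β.arrowType_eq e).symm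

/-- identity -/
def InputIso.refl (c : G.Node) : G.InputIso c c := ⟨rfl, Equiv.refl _, fun _ => rfl⟩

/-- inverse -/
def InputIso.symm {c d : G.Node} (β : G.InputIso c d) : G.InputIso d c :=
  ⟨β.nodeType_eq.symm, β.toEquiv.symm, fun e => by
    have := β.arrowType_eq (β.toEquiv.symm e)
    rw [Equiv.apply_symm_apply] at this
    exact this.symm⟩

/-- composition -/
def InputIso.trans {c d e : G.Node} (β : G.InputIso c d) (γ : G.InputIso d e) :
    G.InputIso c e :=
  ⟨β.nodeType_eq.trans γ.nodeType_eq, β.toEquiv.trans γ.toEquiv, fun i => by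
    rw [Equiv.trans_apply, γ.arrowType_eq, β.arrowType_eq]⟩

theorem InputIso.ext_equiv {c d : G.Node} {β γ : G.InputIso c d} (h : β.toEquiv = γ.toEquiv) :
    β = γ := by
  cases β; cases γ; cases h; rfl

instance (c d : G.Node) : Finite (G.InputIso c d) :=
  Finite.of_injective (fun β : G.InputIso c d => β.toEquiv) fun _ _ h => InputIso.ext_equiv h

noncomputable instance (c d : G.Node) : Fintype (G.InputIso c d) := Fintype.ofFinite _

end Network

variable {G : Network} (S : StateSpaces G)

namespace StateSpaces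

/-- transport of states between nodes with the same state space -/
noncomputable def tr {c d : G.Node} (h : S.label (G.nodeType c) = S.label (G.nodeType d)) :
    S.St c ≃ₗᵢ[ℝ] S.St d :=
  LinearIsometryEquiv.piLpCongrLeft 2 ℝ ℝ (finCongr (congrArg S.dim h))

theorem tr_apply {c d : G.Node} (h : S.label (G.nodeType c) = S.label (G.nodeType d))
    (u : S.St c) (i) : S.tr h u i = u (Fin.cast (congrArg S.dim h).symm i) := rfl

theorem eqv_iff {c d : G.Node} {u : S.St c} {v : S.St d} :
    S.Eqv u v ↔ ∃ h : S.label (G.nodeType c) = S.label (G.nodeType d), S.tr h u = v := by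
  constructor
  · rintro ⟨h, hi⟩
    refine ⟨h, ?_⟩
    ext i
    rw [tr_apply, hi]
    rfl
  · rintro ⟨h, rfl⟩
    exact ⟨h, fun i => rfl⟩

theorem eqv_tr {c d : G.Node} (h : S.label (G.nodeType c) = S.label (G.nodeType d))
    {u : S.St c} {v : S.St d} : S.Eqv u v ↔ S.tr h u = v := by
  rw [eqv_iff]
  exact ⟨fun ⟨_, h2⟩ => h2, fun h2 => ⟨h, h2⟩⟩

theorem Eqv.refl {c : G.Node} (u : S.St c) : S.Eqv u u := ⟨rfl, fun _ => rfl⟩

theorem eqv_self {c : G.Node} {u v : S.St c} : S.Eqv u v ↔ u = v := by
  constructor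
  · rintro ⟨_, h⟩
    ext i
    exact h i
  · rintro rfl
    exact Eqv.refl S u

variable {S}

theorem Eqv.symm {c d : G.Node} {u : S.St c} {v : S.St d} (h : S.Eqv u v) : S.Eqv v u := by
  obtain ⟨h1, h2⟩ := h
  refine ⟨h1.symm, fun i => ?_⟩
  rw [h2]
  rfl

theorem Eqv.trans {c d e : G.Node} {u : S.St c} {v : S.St d} {w : S.St e} (h : S.Eqv u v)
    (k : S.Eqv v w) : S.Eqv u w := by
  obtain ⟨h1, h2⟩ := h
  obtain ⟨k1, k2⟩ := k
  refine ⟨h1.trans k1, fun i => ?_⟩
  rw [h2, k2]
  rfl

theorem Eqv.label {c d : G.Node} {u : S.St c} {v : S.St d} (h : S.Eqv u v) :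
    S.label (G.nodeType c) = S.label (G.nodeType d) := h.1

variable (S)

/-- the variables of `f_c` at the state `x` -/
def arg (x : S.Phase) (c : G.Node) : S.Arg c := (x c, fun e => x (G.src e))

/-- pull back of variables along an input isomorphism -/
noncomputable def pull {c d : G.Node} (β : G.InputIso c d) : S.Arg d →L[ℝ] S.Arg c :=
  ((S.tr (congrArg S.label β.nodeType_eq)).symm.toContinuousLinearEquiv.toContinuousLinearMap.comp
      (ContinuousLinearMap.fst ℝ _ _)).prod
    (ContinuousLinearMap.pi fun e =>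
      ((S.tr (congrArg S.label (Network.src_type β e))).symm.toContinuousLinearEquiv
        |>.toContinuousLinearMap).comp
        ((ContinuousLinearMap.proj (β.toEquiv e)).comp (ContinuousLinearMap.snd ℝ _ _)))

theorem pull_fst {c d : G.Node} (β : G.InputIso c d) (q : S.Arg d) :
    (S.pull β q).1 = (S.tr (congrArg S.label β.nodeType_eq)).symm q.1 := rfl

theorem pull_snd {c d : G.Node} (β : G.InputIso c d) (q : S.Arg d) (e : G.Input c) :
    (S.pull β q).2 e = (S.tr (congrArg S.label (Network.src_type β e))).symm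
      (q.2 (β.toEquiv e)) := rfl

theorem pull_eq_iff {c d : G.Node} (β : G.InputIso c d) (q : S.Arg d) (p : S.Arg c) :
    S.pull β q = p ↔ S.Eqv p.1 q.1 ∧ ∀ e, S.Eqv (p.2 e) (q.2 (β.toEquiv e)) := by
  constructor
  · rintro rfl
    refine ⟨?_, fun e => ?_⟩
    · rw [S.eqv_tr (congrArg S.label β.nodeType_eq), pull_fst,
        LinearIsometryEquiv.apply_symm_apply]
    · rw [S.eqv_tr (congrArg S.label (Network.src_type β e)), pull_snd,
        LinearIsometryEquiv.apply_symm_apply]
  · rintro ⟨h1, h2⟩
    refine Prod.ext ?_ (funext fun e => ?_)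
    · rw [pull_fst, ← (S.eqv_tr (congrArg S.label β.nodeType_eq)).1 h1,
        LinearIsometryEquiv.symm_apply_apply]
    · rw [pull_snd, ← (S.eqv_tr (congrArg S.label (Network.src_type β e))).1 (h2 e),
        LinearIsometryEquiv.symm_apply_apply]

theorem pull_trans {c d e : G.Node} (β : G.InputIso c d) (γ : G.InputIso d e) (q : S.Arg e) :
    S.pull (β.trans γ) q = S.pull β (S.pull γ q) := by
  have h1 := (S.pull_eq_iff γ q _).1 rfl
  have h2 := (S.pull_eq_iff β (S.pull γ q) _).1 rfl
  rw [pull_eq_iff]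
  exact ⟨h2.1.trans h1.1, fun i => (h2.2 i).trans (h1.2 _)⟩

theorem pull_refl {c : G.Node} (q : S.Arg c) : S.pull (Network.InputIso.refl c) q = q := by
  rw [pull_eq_iff]
  exact ⟨Eqv.refl S _, fun i => Eqv.refl S _⟩

/-- perturbations: product-admissible, bounded, with bounded derivative -/
structure Pert (h : S.Phase → S.Phase) : Prop where
  adm : S.ProductAdmissible h
  bc : BC1 h

theorem ProductAdmissible.add {h k : S.Phase → S.Phase} (H : S.ProductAdmissible h)
    (K : S.ProductAdmissible k) : S.ProductAdmissible (fun y => h y + k y) := by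
  obtain ⟨F, F1, F2, F3⟩ := H
  obtain ⟨F', F1', F2', F3'⟩ := K
  refine ⟨fun c q => F c q + F' c q, fun c => (F1 c).add (F1' c), fun x c => ?_, ?_⟩
  · show h x c + k x c = _
    rw [F2, F2']
  · intro c d β p q hp hq
    have h1 := F3 c d β p q hp hq
    have h2 := F3' c d β p q hp hq
    obtain ⟨l, h1⟩ := h1
    obtain ⟨_, h2⟩ := h2
    exact ⟨l, fun i => by
      show F c p i + F' c p i = F d q _ + F' d q _
      rw [h1, h2]⟩

theorem ProductAdmissible.smul {h : S.Phase → S.Phase} (H : S.ProductAdmissible h) (r : ℝ) :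
    S.ProductAdmissible (fun y => r • h y) := by
  obtain ⟨F, F1, F2, F3⟩ := H
  refine ⟨fun c q => r • F c q, fun c => (F1 c).const_smul r, fun x c => ?_, ?_⟩
  · show r • h x c = _
    rw [F2]
  · intro c d β p q hp hq
    obtain ⟨l, h1⟩ := F3 c d β p q hp hq
    exact ⟨l, fun i => by
      show r * F c p i = r * F d q _
      rw [h1]⟩

theorem ProductAdmissible.zero : S.ProductAdmissible (fun _ => 0) := by
  refine ⟨fun c q => 0, fun c => contDiff_const, fun x c => rfl, ?_⟩
  intro c d β p q hp hq
  exact ⟨congrArg S.label β.nodeType_eq, fun i => rfl⟩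

theorem ProductAdmissible.admissible {h : S.Phase → S.Phase} (H : S.ProductAdmissible h) :
    S.Admissible h := by
  obtain ⟨F, F1, F2, F3⟩ := H
  refine ⟨fun c x y hc he => ?_, fun c d β x y hc he => ?_⟩
  · rw [F2, F2, hc]
    congr 2
    funext e
    exact he e
  · rw [F2, F2]
    exact F3 c d β _ _ hc he

theorem Admissible.add {h k : S.Phase → S.Phase} (H : S.Admissible h) (K : S.Admissible k) :
    S.Admissible (fun y => h y + k y) := by
  refine ⟨fun c x y hc he => ?_, fun c d β x y hc he => ?_⟩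
  · show h x c + k x c = h y c + k y c
    rw [H.1 c x y hc he, K.1 c x y hc he]
  · obtain ⟨l, h1⟩ := H.2 c d β x y hc he
    obtain ⟨_, h2⟩ := K.2 c d β x y hc he
    exact ⟨l, fun i => by
      show h x c i + k x c i = h y d _ + k y d _
      rw [h1, h2]⟩

variable {S}

theorem Pert.add {h k : S.Phase → S.Phase} (H : S.Pert h) (K : S.Pert k) :
    S.Pert (fun y => h y + k y) := ⟨H.adm.add S K.adm, H.bc.add K.bc⟩

theorem Pert.smul {h : S.Phase → S.Phase} (H : S.Pert h) (r : ℝ) : S.Pert (fun y => r • h y) :=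
  ⟨H.adm.smul S r, H.bc.const_smul r⟩

theorem Pert.zero : S.Pert (fun _ => 0) := ⟨ProductAdmissible.zero S, BC1.const 0⟩

theorem Pert.sum {ι : Type*} (s : Finset ι) {h : ι → S.Phase → S.Phase}
    (H : ∀ i ∈ s, S.Pert (h i)) : S.Pert (fun y => ∑ i ∈ s, h i y) := by
  classical
  induction s using Finset.induction_on with
  | empty => simpa using (Pert.zero (S := S))
  | insert i s hi ih =>
    have h1 := (H i (Finset.mem_insert_self i s)).add
      (ih fun j hj => H j (Finset.mem_insert_of_mem hj))
    simpa [Finset.sum_insert hi] using h1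

variable (S)

/-! ### Bump fields -/

/-- the coefficient function of the bump field on the node `e` -/
noncomputable def coef {a : G.Node} {q0 : S.Arg a} (b : ContDiffBump q0) (e : G.Node)
    (q : S.Arg e) : ℝ := 1 - ∏ β : G.InputIso a e, (1 - b (S.pull β q))

open Classical in
/-- the vector of the bump field on the node `e` -/
noncomputable def vec {a : G.Node} (v : S.St a) (e : G.Node) : S.St e :=
  if h : S.label (G.nodeType a) = S.label (G.nodeType e) then S.tr h v else 0

theorem vec_of {a : G.Node} (v : S.St a) {e : G.Node}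
    (h : S.label (G.nodeType a) = S.label (G.nodeType e)) : S.vec v e = S.tr h v := by
  unfold vec
  rw [dif_pos h]

theorem vec_norm {a : G.Node} (v : S.St a) (e : G.Node) : ‖S.vec v e‖ ≤ ‖v‖ := by
  unfold vec
  split_ifs with h
  · rw [LinearIsometryEquiv.norm_map]
  · simp

/-- the bump field -/
noncomputable def bump {a : G.Node} {q0 : S.Arg a} (b : ContDiffBump q0) (v : S.St a)
    (x : S.Phase) : S.Phase := fun e => S.coef b e (S.arg x e) • S.vec v e

theorem coef_congr {a : G.Node} {q0 : S.Arg a} (b : ContDiffBump q0) {c d : G.Node}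
    (γ : G.InputIso c d) (q : S.Arg d) : S.coef b c (S.pull γ q) = S.coef b d q := by
  unfold coef
  congr 1
  refine Fintype.prod_equiv ⟨fun β => β.trans γ, fun β => β.trans γ.symm, ?_, ?_⟩ _ _ ?_
  · intro β
    apply Network.InputIso.ext_equiv
    ext i : 1
    simp [Network.InputIso.trans, Network.InputIso.symm]
  · intro β
    apply Network.InputIso.ext_equiv
    ext i : 1
    simp [Network.InputIso.trans, Network.InputIso.symm]
  · intro β
    simp only [Equiv.coe_fn_mk]
    rw [pull_trans]

theorem coef_range {a : G.Node} {q0 : S.Arg a} (b : ContDiffBump q0) (e : G.Node)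
    (q : S.Arg e) : 0 ≤ S.coef b e q ∧ S.coef b e q ≤ 1 := by
  unfold coef
  have h1 : ∀ β : G.InputIso a e, 0 ≤ 1 - b (S.pull β q) := fun β => by
    linarith [b.le_one (x := S.pull β q)]
  have h2 : ∀ β : G.InputIso a e, 1 - b (S.pull β q) ≤ 1 := fun β => by
    linarith [b.nonneg (x := S.pull β q)]
  have h3 : 0 ≤ ∏ β : G.InputIso a e, (1 - b (S.pull β q)) := Finset.prod_nonneg fun β _ => h1 β
  have h4 : ∏ β : G.InputIso a e, (1 - b (S.pull β q)) ≤ 1 :=
    Finset.prod_le_one (fun β _ => h1 β) fun β _ => h2 β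
  constructor <;> linarith

theorem coef_one {a : G.Node} {q0 : S.Arg a} (b : ContDiffBump q0) (e : G.Node)
    (q : S.Arg e) (β : G.InputIso a e) (h : S.pull β q = q0) : S.coef b e q = 1 := by
  unfold coef
  have : ∏ β : G.InputIso a e, (1 - b (S.pull β q)) = 0 := by
    refine Finset.prod_eq_zero (Finset.mem_univ β) ?_
    rw [h, b.one_of_mem_closedBall (Metric.mem_closedBall_self b.rIn_pos.le)]
    simp
  rw [this, sub_zero]

theorem coef_zero {a : G.Node} {q0 : S.Arg a} (b : ContDiffBump q0) (e : G.Node)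
    (q : S.Arg e) (h : ∀ β : G.InputIso a e, b.rOut ≤ dist (S.pull β q) q0) :
    S.coef b e q = 0 := by
  unfold coef
  have : ∏ β : G.InputIso a e, (1 - b (S.pull β q)) = 1 := by
    refine Finset.prod_eq_one fun β _ => ?_
    rw [b.zero_of_le_dist (h β), sub_zero]
  rw [this, sub_self]

theorem bump_norm {a : G.Node} {q0 : S.Arg a} (b : ContDiffBump q0) (v : S.St a)
    (x : S.Phase) : ‖S.bump b v x‖ ≤ ‖v‖ := by
  rw [pi_norm_le_iff_of_nonneg (norm_nonneg _)]
  intro e
  unfold bump
  rw [norm_smul, Real.norm_eq_abs, abs_of_nonneg (S.coef_range b e _).1]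
  calc _ ≤ 1 * ‖v‖ := mul_le_mul (S.coef_range b e _).2 (S.vec_norm v e) (norm_nonneg _) zero_le_one
    _ = ‖v‖ := one_mul _

theorem bump_zero {a : G.Node} {q0 : S.Arg a} (b : ContDiffBump q0) (v : S.St a)
    (x : S.Phase) (e : G.Node)
    (h : ∀ β : G.InputIso a e, b.rOut ≤ dist (S.pull β (S.arg x e)) q0) :
    S.bump b v x e = 0 := by
  unfold bump
  rw [S.coef_zero b e _ h, zero_smul]

theorem bump_val {a : G.Node} {q0 : S.Arg a} (b : ContDiffBump q0) (v : S.St a)
    (x : S.Phase) (e : G.Node) (β : G.InputIso a e) (h : S.pull β (S.arg x e) = q0) :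
    S.bump b v x e = S.tr (congrArg S.label β.nodeType_eq) v := by
  unfold bump
  rw [S.coef_one b e _ β h, one_smul, S.vec_of]

/-- the argument map is linear -/
noncomputable def argL (e : G.Node) : S.Phase →L[ℝ] S.Arg e :=
  (ContinuousLinearMap.proj e).prod (ContinuousLinearMap.pi fun _ => ContinuousLinearMap.proj _)

theorem argL_apply (e : G.Node) (x : S.Phase) : S.argL e x = S.arg x e := rfl

theorem coef_contDiff {a : G.Node} {q0 : S.Arg a} (b : ContDiffBump q0) (e : G.Node) :
    ContDiff ℝ 1 (S.coef b e) := by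
  unfold coef
  refine contDiff_const.sub (contDiff_prod fun β _ => contDiff_const.sub ?_)
  exact b.contDiff.comp (S.pull β).contDiff

theorem bump_pert {a : G.Node} {q0 : S.Arg a} (b : ContDiffBump q0) (v : S.St a) :
    S.Pert (S.bump b v) := by
  refine ⟨⟨fun e q => S.coef b e q • S.vec v e, fun e => ?_, fun x e => rfl, ?_⟩, ?_⟩
  · exact (S.coef_contDiff b e).smul contDiff_const
  · intro c d γ p q hp hq
    have h1 : S.pull γ q = p := (S.pull_eq_iff γ q p).2 ⟨hp, hq⟩
    have h2 : S.coef b c p = S.coef b d q := by rw [← h1, S.coef_congr]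
    have hl : S.label (G.nodeType c) = S.label (G.nodeType d) := congrArg S.label γ.nodeType_eq
    rw [S.eqv_tr hl, map_smul, h2]
    congr 1
    unfold vec
    by_cases h : S.label (G.nodeType a) = S.label (G.nodeType c)
    · rw [dif_pos h, dif_pos (h.trans hl)]
      ext i
      rfl
    · rw [dif_neg h, dif_neg (fun h' => h (h'.trans hl.symm)), map_zero]
  · apply BC1.pi
    intro e
    have h1 : BC1 (b : S.Arg a → ℝ) := BC1.of_compact b.contDiff b.hasCompactSupport
    have h2 : BC1 (fun x : S.Phase => S.coef b e (S.arg x e)) := by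
      unfold coef
      refine (BC1.const (1 : ℝ)).sub (BC1.prod _ fun β _ => (BC1.const (1 : ℝ)).sub ?_)
      exact h1.comp_clm ((S.pull β).comp (S.argL e))
    exact h2.smul_vec _

end StateSpaces

end Pool.Agent.U603.Rig
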