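import Mathlib
import Pool.Agent.U603.Rig.ODE
import Pool.Agent.U603.Rig.Bump

/-!
# Stable coincidences: first order lemma and pulses
-/

set_option autoImplicit false
set_option linter.unusedSectionVars false

namespace Pool.Agent.U603.Rig

open Set Filter Topology MeasureTheory

/-- There are times at which the continuous nonconstant curve `X` avoids all values which the
curves `Y j` take on sets of positive measure. -/
theorem exists_nonatomic {Q J : Type*} [MetricSpace Q] [Countable J] {X : ℝ → Q}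
    (hX : Continuous X) {Y : J → ℝ → Q} (hY : ∀ j, Continuous (Y j)) {α β T s1 s2 : ℝ}
    (h1 : s1 ∈ Ioo α β) (h2 : s2 ∈ Ioo α β) (hne : X s1 ≠ X s2) :
    ∃ t₀ ∈ Ioo α β, ∀ j, volume (Icc 0 T ∩ {s | Y j s = X t₀}) = 0 := by
  by_contra hcon
  push Not at hcon
  set μ := (volume : Measure ℝ).restrict (Icc 0 T) with hμ
  have hcount : ∀ j, {q : Q | 0 < μ {s | Y j s = q}}.Countable := by
    intro j
    apply Measure.countable_meas_pos_of_disjoint_iUnion
    · intro q
      exact (isClosed_eq (hY j) continuous_const).measurableSet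
    · intro q q' hqq'
      rw [Function.onFun, Set.disjoint_left]
      intro s hs hs'
      exact hqq' (hs.symm.trans hs')
  have hA : (⋃ j, {q : Q | 0 < μ {s | Y j s = q}}).Countable := countable_iUnion hcount
  have hXA : ∀ t ∈ Ioo α β, X t ∈ ⋃ j, {q : Q | 0 < μ {s | Y j s = q}} := by
    intro t ht
    obtain ⟨j, hj⟩ := hcon t ht
    rw [mem_iUnion]
    refine ⟨j, ?_⟩
    rw [mem_ofPred_eq, hμ, Measure.restrict_apply (isClosed_eq (hY j) continuous_const).measurableSet,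
      inter_comm]
    exact pos_iff_ne_zero.2 hj
  let φ : ℝ → ℝ := fun t => dist (X t) (X s1)
  have hφc : Continuous φ := hX.dist continuous_const
  have hφ1 : φ s1 = 0 := dist_self _
  have hφ2 : 0 < φ s2 := dist_pos.2 hne.symm
  have hsub : uIcc (φ s1) (φ s2) ⊆ (fun q => dist q (X s1)) ''
      (⋃ j, {q : Q | 0 < μ {s | Y j s = q}}) := by
    intro r hr
    obtain ⟨t, ht, rfl⟩ := intermediate_value_uIcc (hφc.continuousOn (s := uIcc s1 s2)) hr
    refine ⟨X t, hXA t ?_, rfl⟩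
    exact (ordConnected_Ioo.uIcc_subset h1 h2) ht
  have hz : volume (uIcc (φ s1) (φ s2)) = 0 :=
    ((hA.image _).mono hsub).measure_zero _
  rw [hφ1, uIcc_of_le hφ2.le, Real.volume_Icc] at hz
  simp only [sub_zero, ENNReal.ofReal_eq_zero] at hz
  linarith

/-- `C^1` functions are Lipschitz on balls. -/
theorem lip_ball {E F : Type*} [NormedAddCommGroup E] [NormedSpace ℝ E] [FiniteDimensional ℝ E]
    [NormedAddCommGroup F] [NormedSpace ℝ F]
    {f : E → F} (hf : ContDiff ℝ 1 f) (R : ℝ) : ∃ K, 0 ≤ K ∧ ∀ u v, ‖u‖ ≤ R → ‖v‖ ≤ R →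
      ‖f u - f v‖ ≤ K * ‖u - v‖ := by
  obtain ⟨K, hK⟩ := (isCompact_closedBall (0 : E) R).exists_bound_of_continuousOn
    (hf.continuous_fderiv (by norm_num)).continuousOn
  refine ⟨max K 0, le_max_right _ _, fun u v hu hv => ?_⟩
  exact (convex_closedBall (0 : E) R).norm_image_sub_le_of_norm_fderiv_le (𝕜 := ℝ)
    (fun y _ => (hf.differentiable (by norm_num)) y)
    (fun y hy => (hK y hy).trans (le_max_left _ _))
    (by simpa using hv) (by simpa using hu)

/-- First order estimate. -/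
theorem first_order {E F : Type*} [NormedAddCommGroup E] [NormedSpace ℝ E]
    [NormedAddCommGroup F] [NormedSpace ℝ F] {f h : E → E} (hh : Continuous h) (Lf : E →L[ℝ] F)
    {z : E} {w : ℝ → E} {ε₀ B K R : ℝ} (hε₀ : 0 < ε₀) (hR : ‖z‖ + 1 ≤ R) (hB : 0 ≤ B)
    (hK0 : 0 ≤ K) (hK : ∀ u v, ‖u‖ ≤ R → ‖v‖ ≤ R → ‖f u - f v‖ ≤ K * ‖u - v‖)
    (hw : ∀ ε, 0 < ε → ε < ε₀ → ‖w ε - z‖ ≤ ε * B)
    (h1 : ∀ ε, 0 < ε → ε < ε₀ → Lf (f (w ε) + ε • h (w ε)) = 0) (h0 : Lf (f z) = 0) :
    ‖Lf (h z)‖ ≤ ‖Lf‖ * (K * B) := by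
  have hwt : Tendsto w (𝓝[>] 0) (𝓝 z) := by
    rw [tendsto_iff_norm_sub_tendsto_zero]
    have h2 : Tendsto (fun ε : ℝ => ε * B) (𝓝[>] 0) (𝓝 0) := by
      have : Tendsto (fun ε : ℝ => ε * B) (𝓝 0) (𝓝 (0 * B)) := (continuous_id.mul
        continuous_const).tendsto 0
      rw [zero_mul] at this
      exact this.mono_left nhdsWithin_le_nhds
    refine squeeze_zero' (Eventually.of_forall fun _ => norm_nonneg _) ?_ h2
    filter_upwards [Ioo_mem_nhdsGT hε₀] with ε hε
    exact hw ε hε.1 hε.2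
  have hlim : Tendsto (fun ε => ‖Lf (h (w ε))‖) (𝓝[>] 0) (𝓝 ‖Lf (h z)‖) :=
    ((Lf.continuous.comp hh).tendsto z).norm.comp hwt
  refine le_of_tendsto hlim ?_
  have hε1 : 0 < min ε₀ (1 / (B + 1)) := lt_min hε₀ (by positivity)
  filter_upwards [Ioo_mem_nhdsGT hε1] with ε hε
  have hεp : 0 < ε := hε.1
  have hε2 : ε < ε₀ := hε.2.trans_le (min_le_left _ _)
  have hε3 : ε * B ≤ 1 := by
    have h3 : ε < 1 / (B + 1) := hε.2.trans_le (min_le_right _ _)
    rw [lt_div_iff₀ (by positivity)] at h3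
    nlinarith
  have h3 := hw ε hεp hε2
  have h4 := h1 ε hεp hε2
  rw [map_add, map_smul] at h4
  have h5 : ε • Lf (h (w ε)) = -(Lf (f (w ε) - f z)) := by
    rw [map_sub, h0, sub_zero]
    exact eq_neg_of_add_eq_zero_right h4
  have h6 : ‖w ε‖ ≤ R := by
    calc ‖w ε‖ = ‖z + (w ε - z)‖ := by congr 1; abel
      _ ≤ ‖z‖ + ‖w ε - z‖ := norm_add_le _ _
      _ ≤ R := by linarith
  have h7 : ‖f (w ε) - f z‖ ≤ K * (ε * B) :=
    (hK _ _ h6 (by linarith)).trans (mul_le_mul_of_nonneg_left h3 hK0)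
  have h8 : ε * ‖Lf (h (w ε))‖ ≤ ε * (‖Lf‖ * (K * B)) := by
    calc ε * ‖Lf (h (w ε))‖ = ‖ε • Lf (h (w ε))‖ := by
          rw [norm_smul, Real.norm_eq_abs, abs_of_pos hεp]
      _ = ‖Lf (f (w ε) - f z)‖ := by rw [h5, norm_neg]
      _ ≤ ‖Lf‖ * (K * (ε * B)) :=
          (Lf.le_opNorm _).trans (mul_le_mul_of_nonneg_left h7 (norm_nonneg _))
      _ = _ := by ring
  exact le_of_mul_le_mul_left h8 hεp

variable {G : Network} (S : StateSpaces G)

namespace StateSpaces

open Classical in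
/-- coincidences of a state -/
noncomputable def coin (p : S.Phase) : Finset (G.Node × G.Node) :=
  Finset.univ.filter fun ab => S.Eqv (p ab.1) (p ab.2)

open Classical in
/-- nodes at rest -/
noncomputable def rest (q : S.Phase) : Finset G.Node := Finset.univ.filter fun e => q e = 0

theorem mem_coin {p : S.Phase} {a b : G.Node} : (a, b) ∈ S.coin p ↔ S.Eqv (p a) (p b) := by
  simp [coin]

theorem mem_rest {q : S.Phase} {e : G.Node} : e ∈ S.rest q ↔ q e = 0 := by
  simp [rest]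

/-- difference of the states of two nodes -/
noncomputable def dif {a b : G.Node} (h : S.label (G.nodeType a) = S.label (G.nodeType b)) :
    S.Phase →L[ℝ] S.St b :=
  (S.tr h).toContinuousLinearEquiv.toContinuousLinearMap.comp (ContinuousLinearMap.proj a) -
    ContinuousLinearMap.proj b

theorem dif_apply {a b : G.Node} (h : S.label (G.nodeType a) = S.label (G.nodeType b))
    (p : S.Phase) : S.dif h p = S.tr h (p a) - p b := rfl

theorem dif_eq_zero {a b : G.Node} (h : S.label (G.nodeType a) = S.label (G.nodeType b))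
    (p : S.Phase) : S.dif h p = 0 ↔ S.Eqv (p a) (p b) := by
  rw [dif_apply, sub_eq_zero, S.eqv_tr h]

/-- A periodic orbit `z` (of `z' = (1 + θ) F(z)`) whose coincidences `R` and nodes at rest `K` near
the time `t₀` are stable under perturbations. -/
structure Stab (F : S.Phase → S.Phase) (z : ℝ → S.Phase) (θ T ρ t₀ C : ℝ)
    (R : Finset (G.Node × G.Node)) (K : Finset G.Node) : Prop where
  adm : S.Admissible F
  smooth : ContDiff ℝ 1 F
  hθ : 1 + θ ≠ 0
  hT : 0 < T
  hC : 0 ≤ C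
  hρ : 0 < ρ
  deriv : ∀ t, HasDerivAt z ((1 + θ) • F (z t)) t
  per : Function.Periodic z T
  hR : ∀ t, |t - t₀| < ρ → S.coin (z t) = R
  hK : ∀ t, |t - t₀| < ρ → S.rest (F (z t)) = K
  pert : ∀ h : S.Phase → S.Phase, S.Pert h → ∃ (w : ℝ → ℝ → S.Phase) (ϑ : ℝ → ℝ) (ε₀ : ℝ), 0 < ε₀ ∧
    ∀ ε, 0 < ε → ε < ε₀ → 1 + ϑ ε ≠ 0 ∧
      (∀ t, HasDerivAt (w ε) ((1 + ϑ ε) • (F (w ε t) + ε • h (w ε t))) t) ∧
      (∀ t, ‖w ε t - z t‖ ≤ ε * (C * ∫ s in (0 : ℝ)..T, ‖h (z s)‖)) ∧
      ∀ t, |t - t₀| < ρ → S.coin (w ε t) = R ∧ S.rest (F (w ε t) + ε • h (w ε t)) = K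

namespace Stab

variable {S} {F : S.Phase → S.Phase} {z : ℝ → S.Phase} {θ T ρ t₀ C : ℝ}
    {R : Finset (G.Node × G.Node)} {K : Finset G.Node}

theorem cont (D : S.Stab F z θ T ρ t₀ C R K) : Continuous z :=
  continuous_iff_continuousAt.2 fun t => (D.deriv t).continuousAt

theorem hR0 (D : S.Stab F z θ T ρ t₀ C R K) : S.coin (z t₀) = R :=
  D.hR t₀ (by simpa using D.hρ)

theorem hK0 (D : S.Stab F z θ T ρ t₀ C R K) : S.rest (F (z t₀)) = K :=
  D.hK t₀ (by simpa using D.hρ)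

theorem R_iff (D : S.Stab F z θ T ρ t₀ C R K) {a b : G.Node} :
    (a, b) ∈ R ↔ S.Eqv (z t₀ a) (z t₀ b) := by
  rw [← D.hR0, mem_coin]

theorem R_refl (D : S.Stab F z θ T ρ t₀ C R K) (a : G.Node) : (a, a) ∈ R :=
  D.R_iff.2 (Eqv.refl S _)

theorem R_symm (D : S.Stab F z θ T ρ t₀ C R K) {a b : G.Node} (h : (a, b) ∈ R) : (b, a) ∈ R :=
  D.R_iff.2 (D.R_iff.1 h).symm

theorem R_trans (D : S.Stab F z θ T ρ t₀ C R K) {a b c : G.Node} (h : (a, b) ∈ R)
    (k : (b, c) ∈ R) : (a, c) ∈ R :=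
  D.R_iff.2 ((D.R_iff.1 h).trans (D.R_iff.1 k))

theorem R_label (D : S.Stab F z θ T ρ t₀ C R K) {a b : G.Node} (h : (a, b) ∈ R) :
    S.label (G.nodeType a) = S.label (G.nodeType b) := (D.R_iff.1 h).label

/-- differentiate a coincidence valid on a time interval -/
theorem dif_deriv {u : ℝ → S.Phase} {u' : S.Phase} {t ρ t₀ : ℝ} (ht : |t - t₀| < ρ)
    (hu : HasDerivAt u u' t) {a b : G.Node}
    (hl : S.label (G.nodeType a) = S.label (G.nodeType b))
    (h : ∀ s, |s - t₀| < ρ → S.Eqv (u s a) (u s b)) : S.dif hl u' = 0 := by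
  have h1 : HasDerivAt (fun s => S.dif hl (u s)) (S.dif hl u') t :=
    (S.dif hl).hasFDerivAt.comp_hasDerivAt t hu
  have h2 : (fun s => S.dif hl (u s)) =ᶠ[𝓝 t] fun _ => (0 : S.St b) := by
    have hop : {s : ℝ | |s - t₀| < ρ} ∈ 𝓝 t :=
      (isOpen_lt (by fun_prop) continuous_const).mem_nhds ht
    filter_upwards [hop] with s hs
    exact (S.dif_eq_zero hl _).2 (h s hs)
  have h3 : HasDerivAt (fun s => S.dif hl (u s)) 0 t :=
    (hasDerivAt_const t (0 : S.St b)).congr_of_eventuallyEq h2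
  exact h1.unique h3

theorem R_field (D : S.Stab F z θ T ρ t₀ C R K) {a b : G.Node} (h : (a, b) ∈ R)
    {t : ℝ} (ht : |t - t₀| < ρ) : S.dif (D.R_label h) (F (z t)) = 0 := by
  have h1 := dif_deriv (S := S) ht (D.deriv t) (D.R_label h) (fun s hs => by
    rw [← mem_coin, D.hR s hs]; exact h)
  rw [map_smul] at h1
  exact (smul_eq_zero.1 h1).resolve_left D.hθ

/-- related nodes are both at rest or both not at rest -/
theorem K_of_R (D : S.Stab F z θ T ρ t₀ C R K) {a b : G.Node} (h : (a, b) ∈ R)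
    (ha : a ∈ K) : b ∈ K := by
  have h1 := D.R_field h (t := t₀) (by simpa using D.hρ)
  rw [← D.hK0, mem_rest] at ha ⊢
  rw [dif_apply, ha, map_zero, zero_sub, neg_eq_zero] at h1
  exact h1

theorem int_nonneg (D : S.Stab F z θ T ρ t₀ C R K) (h : S.Phase → S.Phase) :
    0 ≤ ∫ s in (0 : ℝ)..T, ‖h (z s)‖ :=
  intervalIntegral.integral_nonneg D.hT.le fun _ _ => norm_nonneg _

/-- The first order estimates for the stable orbit. -/
theorem first (D : S.Stab F z θ T ρ t₀ C R K) : ∃ C₂, 0 ≤ C₂ ∧ ∀ h : S.Phase → S.Phase, S.Pert h →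
    ∀ t, |t - t₀| < ρ →
      (∀ (a b : G.Node) (hab : (a, b) ∈ R),
        ‖S.dif (D.R_label hab) (h (z t))‖ ≤ C₂ * ∫ s in (0 : ℝ)..T, ‖h (z s)‖) ∧
      (∀ e ∈ K, ‖h (z t) e‖ ≤ C₂ * ∫ s in (0 : ℝ)..T, ‖h (z s)‖) := by
  obtain ⟨R1, hR10, hR1⟩ := periodic_bounded D.hT D.cont D.per
  obtain ⟨L, hL0, hL⟩ := lip_ball D.smooth (R1 + 1)
  refine ⟨2 * (L * C), by have := D.hC; positivity, fun h hh t ht => ?_⟩
  have hJ := D.int_nonneg h
  obtain ⟨w, ϑ, ε₀, hε₀, hw⟩ := D.pert h hh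
  have hB : 0 ≤ C * ∫ s in (0 : ℝ)..T, ‖h (z s)‖ := mul_nonneg D.hC hJ
  have hfin : ∀ {F' : Type} [NormedAddCommGroup F'] [NormedSpace ℝ F'] (Lf : S.Phase →L[ℝ] F'),
      ‖Lf‖ ≤ 2 → (∀ ε, 0 < ε → ε < ε₀ → Lf (F (w ε t) + ε • h (w ε t)) = 0) →
      Lf (F (z t)) = 0 → ‖Lf (h (z t))‖ ≤ 2 * (L * C) * ∫ s in (0 : ℝ)..T, ‖h (z s)‖ := by
    intro F' _ _ Lf hLf h1 h0
    have h2 := first_order (f := F) (h := h) hh.bc.smooth.continuous Lf (z := z t)
      (w := fun ε => w ε t) hε₀ (R := R1 + 1) (by linarith [hR1 t]) hB hL0 hL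
      (fun ε h3 h4 => (hw ε h3 h4).2.2.1 t) h1 h0
    refine h2.trans ?_
    calc ‖Lf‖ * (L * (C * ∫ s in (0 : ℝ)..T, ‖h (z s)‖)) ≤
        2 * (L * (C * ∫ s in (0 : ℝ)..T, ‖h (z s)‖)) :=
          mul_le_mul_of_nonneg_right hLf (by positivity)
      _ = _ := by ring
  constructor
  · intro a b hab
    apply hfin (S.dif (D.R_label hab))
    · refine ContinuousLinearMap.opNorm_le_bound _ (by norm_num) fun y => ?_
      rw [dif_apply]
      refine (norm_sub_le _ _).trans ?_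
      rw [LinearIsometryEquiv.norm_map]
      linarith [norm_le_pi_norm y a, norm_le_pi_norm y b]
    · intro ε h3 h4
      have h5 := hw ε h3 h4
      have h6 := dif_deriv (S := S) ht (h5.2.1 t) (D.R_label hab) (fun s hs => by
        rw [← mem_coin, (h5.2.2.2 s hs).1]; exact hab)
      rw [map_smul] at h6
      exact (smul_eq_zero.1 h6).resolve_left h5.1
    · exact D.R_field hab ht
  · intro e he
    apply hfin (ContinuousLinearMap.proj e : S.Phase →L[ℝ] S.St e)
    · refine ContinuousLinearMap.opNorm_le_bound _ (by norm_num) fun y => ?_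
      have := norm_le_pi_norm y e
      have := norm_nonneg y
      simp only [ContinuousLinearMap.proj_apply]
      linarith
    · intro ε h3 h4
      have h5 := ((hw ε h3 h4).2.2.2 t ht).2
      rw [← h5, mem_rest] at he
      exact he
    · rw [← D.hK t ht, mem_rest] at he
      exact he

/-- nodes linked by an input isomorphism which respects the coincidences -/
def Linked (R : Finset (G.Node × G.Node)) (a b : G.Node) : Prop :=
  ∃ β : G.InputIso a b, ∀ i : G.Input a, (G.src i, G.src (β.toEquiv i)) ∈ R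

theorem pull_eq_arg (a b : G.Node) (β : G.InputIso a b) (p : S.Phase) :
    S.pull β (S.arg p b) = S.arg p a ↔ (a, b) ∈ S.coin p ∧
      ∀ i : G.Input a, (G.src i, G.src (β.toEquiv i)) ∈ S.coin p := by
  rw [pull_eq_iff, mem_coin]
  simp only [mem_coin]
  rfl

theorem arg_cont (D : S.Stab F z θ T ρ t₀ C R K) (e : G.Node) :
    Continuous fun s => S.arg (z s) e := (S.argL e).continuous.comp D.cont

/-- Pulses at a nonatomic time. -/
theorem pulse (D : S.Stab F z θ T ρ t₀ C R K) (a : G.Node) (v : S.St a) (hv : v ≠ 0) (t : ℝ)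
    (ht : |t - t₀| < ρ)
    (hna : ∀ j : (Σ e, G.InputIso a e), volume (Icc 0 T ∩
      {s | S.pull j.2 (S.arg (z s) j.1) = S.arg (z t) a}) = 0) :
    a ∉ K ∧ ∀ b, (a, b) ∈ R → Linked R a b := by
  obtain ⟨C₂, hC₂, hfo⟩ := D.first
  set q0 := S.arg (z t) a with hq0
  let b : ℕ → ContDiffBump q0 := fun n =>
    ⟨1 / (2 * ((n : ℝ) + 1)), 1 / ((n : ℝ) + 1), by positivity, by
      apply one_div_lt_one_div_of_lt <;> [positivity; linarith [(n.cast_nonneg : (0 : ℝ) ≤ n)]]⟩
  have hrout : Tendsto (fun n => (b n).rOut) atTop (𝓝 0) := tendsto_one_div_add_atTop_nhds_zero_nat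
  let h : ℕ → S.Phase → S.Phase := fun n => S.bump (b n) v
  have hpert : ∀ n, S.Pert (h n) := fun n => S.bump_pert (b n) v
  -- eventually zero
  have hez : ∀ (p : S.Phase) (e : G.Node), (∀ β : G.InputIso a e, S.pull β (S.arg p e) ≠ q0) →
      ∀ᶠ n in atTop, h n p e = 0 := by
    intro p e hp
    have h1 : ∀ᶠ n in atTop, ∀ β : G.InputIso a e, (b n).rOut ≤ dist (S.pull β (S.arg p e)) q0 := by
      rw [eventually_all]
      intro β
      have h2 : 0 < dist (S.pull β (S.arg p e)) q0 := dist_pos.2 (hp β)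
      filter_upwards [hrout.eventually (gt_mem_nhds h2)] with n hn
      exact hn.le
    filter_upwards [h1] with n hn
    exact S.bump_zero (b n) v p e hn
  have hcz : ∀ n, Continuous fun s => ‖h n (z s)‖ := fun n =>
    ((hpert n).bc.smooth.continuous.comp D.cont).norm
  have hJ : Tendsto (fun n => ∫ s in (0 : ℝ)..T, ‖h n (z s)‖) atTop (𝓝 0) := by
    have h1 := intervalIntegral.tendsto_integral_filter_of_dominated_convergence
      (μ := volume) (a := 0) (b := T) (l := atTop) (F := fun n s => ‖h n (z s)‖)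
      (f := fun _ => (0 : ℝ)) (fun _ => ‖v‖)
      (Eventually.of_forall fun n => (hcz n).aestronglyMeasurable)
      (Eventually.of_forall fun n => Eventually.of_forall fun s _ => by
        rw [norm_norm]; exact S.bump_norm (b n) v (z s))
      (continuous_const.intervalIntegrable _ _) ?_
    · simpa using h1
    · have hnull : volume (⋃ j : (Σ e, G.InputIso a e), (Icc 0 T ∩
          {s | S.pull j.2 (S.arg (z s) j.1) = q0})) = 0 := measure_iUnion_null hna
      filter_upwards [compl_mem_ae_iff.2 hnull] with s hs hsT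
      rw [uIoc_of_le D.hT.le] at hsT
      have h2 : ∀ e : G.Node, ∀ᶠ n in atTop, h n (z s) e = 0 := by
        intro e
        apply hez
        intro β hβ
        apply hs
        rw [mem_iUnion]
        exact ⟨⟨e, β⟩, ⟨hsT.1.le, hsT.2⟩, hβ⟩
      have h3 : ∀ᶠ n in atTop, ‖h n (z s)‖ = 0 := by
        filter_upwards [eventually_all.2 h2] with n hn
        rw [norm_eq_zero]
        funext e
        exact hn e
      exact tendsto_const_nhds.congr' (h3.mono fun n hn => hn.symm)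
  have hCJ : Tendsto (fun n => C₂ * ∫ s in (0 : ℝ)..T, ‖h n (z s)‖) atTop (𝓝 0) := by
    simpa using hJ.const_mul C₂
  have hval : ∀ n, h n (z t) a = v := by
    intro n
    refine (S.bump_val (b n) v (z t) a (Network.InputIso.refl a) (S.pull_refl _)).trans ?_
    ext i
    rfl
  have hvpos : 0 < ‖v‖ := norm_pos_iff.2 hv
  constructor
  · intro haK
    have h1 : ∀ n, ‖v‖ ≤ C₂ * ∫ s in (0 : ℝ)..T, ‖h n (z s)‖ := by
      intro n
      have := (hfo (h n) (hpert n) t ht).2 a haK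
      rwa [hval n] at this
    have h2 := ge_of_tendsto' hCJ h1
    linarith
  · intro b' hab
    by_contra hnl
    have hne : ∀ β : G.InputIso a b', S.pull β (S.arg (z t) b') ≠ q0 := by
      intro β hβ
      rw [hq0, pull_eq_arg, D.hR t ht] at hβ
      exact hnl ⟨β, hβ.2⟩
    have h1 : ∀ᶠ n in atTop, ‖v‖ ≤ C₂ * ∫ s in (0 : ℝ)..T, ‖h n (z s)‖ := by
      filter_upwards [hez (z t) b' hne] with n hn
      have := (hfo (h n) (hpert n) t ht).1 a b' hab
      rwa [dif_apply, hval n, hn, sub_zero, LinearIsometryEquiv.norm_map] at this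
    have h2 := ge_of_tendsto hCJ h1
    linarith

/-- Pulses at a node whose input signal is not constant near `t₀`. -/
theorem pulse' (D : S.Stab F z θ T ρ t₀ C R K) (a : G.Node) (v : S.St a) (hv : v ≠ 0)
    {s1 s2 : ℝ} (h1 : |s1 - t₀| < ρ) (h2 : |s2 - t₀| < ρ)
    (hne : S.arg (z s1) a ≠ S.arg (z s2) a) :
    a ∉ K ∧ ∀ b, (a, b) ∈ R → Linked R a b := by
  have hmem : ∀ s, |s - t₀| < ρ ↔ s ∈ Ioo (t₀ - ρ) (t₀ + ρ) := by
    intro s
    rw [abs_lt, mem_Ioo]
    constructor <;> rintro ⟨h3, h4⟩ <;> constructor <;> linarith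
  obtain ⟨t, ht, hna⟩ := exists_nonatomic (T := T) (D.arg_cont a)
    (Y := fun (j : Σ e, G.InputIso a e) s => S.pull j.2 (S.arg (z s) j.1))
    (fun j => (S.pull j.2).continuous.comp (D.arg_cont j.1)) ((hmem s1).1 h1) ((hmem s2).1 h2) hne
  exact D.pulse a v hv t ((hmem t).2 ht) hna

/-- constant input signals: the tails are at rest -/
theorem rest_of_const (D : S.Stab F z θ T ρ t₀ C R K) (e : G.Node)
    (h : ∀ s, |s - t₀| < ρ → z s e = z t₀ e) : e ∈ K := by
  have h1 : HasDerivAt (fun s => z s e) (((1 + θ) • F (z t₀)) e) t₀ :=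
    (hasDerivAt_pi.1 (D.deriv t₀)) e
  have h2 : (fun s => z s e) =ᶠ[𝓝 t₀] fun _ => z t₀ e := by
    have hop : {s : ℝ | |s - t₀| < ρ} ∈ 𝓝 t₀ :=
      (isOpen_lt (by fun_prop) continuous_const).mem_nhds (by simpa using D.hρ)
    filter_upwards [hop] with s hs
    exact h s hs
  have h3 : HasDerivAt (fun s => z s e) 0 t₀ :=
    (hasDerivAt_const t₀ (z t₀ e)).congr_of_eventuallyEq h2
  have h4 := h1.unique h3
  rw [← D.hK0, mem_rest]
  exact (smul_eq_zero.1 h4).resolve_left D.hθ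

/-- The set of nodes at rest is closed under taking inputs. -/
theorem upstream (D : S.Stab F z θ T ρ t₀ C R K) {a : G.Node} (ha : a ∈ K) {v : S.St a}
    (hv : v ≠ 0) (i : G.Input a) : G.src i ∈ K := by
  by_cases hc : ∀ s, |s - t₀| < ρ → S.arg (z s) a = S.arg (z t₀) a
  · apply D.rest_of_const
    intro s hs
    exact congrFun (congrArg Prod.snd (hc s hs)) i
  · push Not at hc
    obtain ⟨s, hs, hne⟩ := hc
    exact absurd ha (D.pulse' a v hv hs (by simpa using D.hρ) hne).1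

/-- Related nodes which are not at rest are linked. -/
theorem linked_of_moving (D : S.Stab F z θ T ρ t₀ C R K) {a b : G.Node} (hab : (a, b) ∈ R)
    (ha : a ∉ K) {v : S.St a} (hv : v ≠ 0) : Linked R a b := by
  by_cases hc : ∀ s, |s - t₀| < ρ → S.arg (z s) a = S.arg (z t₀) a
  · exfalso
    apply ha
    apply D.rest_of_const
    intro s hs
    exact congrArg Prod.fst (hc s hs)
  · push Not at hc
    obtain ⟨s, hs, hne⟩ := hc
    exact (D.pulse' a v hv hs (by simpa using D.hρ) hne).2 b hab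

end Stab

end StateSpaces

end Pool.Agent.U603.Rig
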