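import Mathlib
import Pool.Agent.U603.Rig.Stab1

/-!
# Stable coincidences: the nodes at rest, and balance
-/

set_option autoImplicit false
set_option linter.unusedSectionVars false

namespace Pool.Agent.U603.Rig

open Set Filter Topology MeasureTheory

variable {G : Network} {S : StateSpaces G}

namespace StateSpaces

namespace Stab

variable {F : S.Phase → S.Phase} {z : ℝ → S.Phase} {θ T ρ t₀ C : ℝ}
    {R : Finset (G.Node × G.Node)} {K : Finset G.Node}

open Classical in
/-- projection on the coordinates in `K` -/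
noncomputable def prK (K : Finset G.Node) : S.Phase →L[ℝ] S.Phase :=
  ContinuousLinearMap.pi fun e => if e ∈ K then ContinuousLinearMap.proj e else 0

theorem prK_mem (K : Finset G.Node) (y : S.Phase) {e : G.Node} (he : e ∈ K) :
    prK (S := S) K y e = y e := by
  simp [prK, he]

theorem prK_notMem (K : Finset G.Node) (y : S.Phase) {e : G.Node} (he : e ∉ K) :
    prK (S := S) K y e = 0 := by
  simp [prK, he]

theorem prK_norm (K : Finset G.Node) (y : S.Phase) : ‖prK (S := S) K y‖ ≤ ‖y‖ := by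
  rw [pi_norm_le_iff_of_nonneg (norm_nonneg _)]
  intro e
  by_cases he : e ∈ K
  · rw [prK_mem K y he]
    exact norm_le_pi_norm y e
  · rw [prK_notMem K y he, norm_zero]
    exact norm_nonneg _

/-- on the nodes of `K` the field depends only on the states of the nodes of `K` -/
theorem dep (D : S.Stab F z θ T ρ t₀ C R K) {x y : S.Phase} (h : ∀ e ∈ K, x e = y e)
    {e : G.Node} (he : e ∈ K) : F x e = F y e := by
  by_cases hv : ∃ v : S.St e, v ≠ 0
  · obtain ⟨v, hv⟩ := hv
    exact D.adm.1 e x y (h e he) fun i => h _ (D.upstream he hv i)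
  · push Not at hv
    rw [hv (F x e), hv (F y e)]

/-- The linearised equation for the nodes at rest. -/
theorem lin (D : S.Stab F z θ T ρ t₀ C R K) (h : S.Phase → S.Phase) (hh : S.Pert h) :
    ∃ y : S.Phase, (∀ e ∉ K, y e = 0) ∧ (∀ e ∈ K, (fderiv ℝ F (z t₀) y) e = -h (z t₀) e) ∧
      ∀ a b, a ∈ K → b ∈ K → (a, b) ∈ R → S.Eqv (y a) (y b) := by
  obtain ⟨w, ϑ, ε₀, hε₀, hw⟩ := D.pert h hh
  set p := z t₀ with hp
  set B := C * ∫ s in (0 : ℝ)..T, ‖h (z s)‖ with hB
  have hB0 : 0 ≤ B := mul_nonneg D.hC (D.int_nonneg h)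
  let ε : ℕ → ℝ := fun n => ε₀ / ((n : ℝ) + 2)
  have hεpos : ∀ n, 0 < ε n := fun n => by positivity
  have hεlt : ∀ n, ε n < ε₀ := fun n => by
    have : (0 : ℝ) ≤ n := n.cast_nonneg
    rw [div_lt_iff₀ (by positivity)]
    nlinarith
  have hεlim : Tendsto ε atTop (𝓝 0) := by
    have h1 : Tendsto (fun n : ℕ => (n : ℝ) + 2) atTop atTop :=
      tendsto_atTop_add_const_right _ _ tendsto_natCast_atTop_atTop
    exact h1.const_div_atTop ε₀
  let d : ℕ → S.Phase := fun n => prK K (w (ε n) t₀ - p)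
  let y : ℕ → S.Phase := fun n => (ε n)⁻¹ • d n
  have hd : ∀ n, ‖d n‖ ≤ ε n * B := fun n =>
    (prK_norm K _).trans ((hw (ε n) (hεpos n) (hεlt n)).2.2.1 t₀)
  have hy : ∀ n, ‖y n‖ ≤ B := by
    intro n
    rw [norm_smul, norm_inv, Real.norm_eq_abs, abs_of_pos (hεpos n), inv_mul_le_iff₀ (hεpos n)]
    exact hd n
  obtain ⟨y0, -, φ, hφ, hlim⟩ := tendsto_subseq_of_bounded (s := Metric.closedBall (0 : S.Phase) B)
    Metric.isBounded_closedBall (x := y) (fun n => by
      rw [mem_closedBall_zero_iff]; exact hy n)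
  have h0 : |t₀ - t₀| < ρ := by simpa using D.hρ
  have hwR : ∀ n, S.coin (w (ε n) t₀) = R := fun n =>
    ((hw (ε n) (hεpos n) (hεlt n)).2.2.2 t₀ h0).1
  have hwK : ∀ n, S.rest (F (w (ε n) t₀) + ε n • h (w (ε n) t₀)) = K := fun n =>
    ((hw (ε n) (hεpos n) (hεlt n)).2.2.2 t₀ h0).2
  refine ⟨y0, fun e he => ?_, fun e he => ?_, fun a b ha hb hab => ?_⟩
  · have h1 : Tendsto (fun n => y (φ n) e) atTop (𝓝 (y0 e)) :=
      ((continuous_apply e).tendsto y0).comp hlim
    have h2 : ∀ n, y (φ n) e = 0 := fun n => by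
      show (ε (φ n))⁻¹ • (prK K (w (ε (φ n)) t₀ - p)) e = 0
      rw [prK_notMem K _ he, smul_zero]
    exact tendsto_nhds_unique h1 (by simp only [h2]; exact tendsto_const_nhds)
  · -- the derivative
    have hF : HasFDerivWithinAt F (fderiv ℝ F p) univ p :=
      ((D.smooth.differentiable (by norm_num)) p).hasFDerivAt.hasFDerivWithinAt
    have hd0 : Tendsto (fun n => d (φ n)) atTop (𝓝 0) := by
      have h4 : Tendsto (fun n => ε n * B) atTop (𝓝 0) := by
        simpa using hεlim.mul_const B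
      rw [tendsto_zero_iff_norm_tendsto_zero]
      exact squeeze_zero (fun _ => norm_nonneg _) (fun n => hd (φ n))
        (h4.comp hφ.tendsto_atTop)
    have h1 := hF.lim (l := atTop) (c := fun n => (ε (φ n))⁻¹) (d := fun n => d (φ n)) (v := y0)
      hd0 (Eventually.of_forall fun n => mem_univ _) hlim
    have h2 : Tendsto (fun n => ((ε (φ n))⁻¹ • (F (p + d (φ n)) - F p)) e) atTop
        (𝓝 ((fderiv ℝ F p y0) e)) := ((continuous_apply e).tendsto _).comp h1
    have h3 : ∀ n, ((ε n)⁻¹ • (F (p + d n) - F p)) e = -h (w (ε n) t₀) e := by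
      intro n
      have e1 : F (p + d n) e = F (w (ε n) t₀) e := by
        apply D.dep _ he
        intro j hj
        show p j + prK K (w (ε n) t₀ - p) j = _
        rw [prK_mem K _ hj]
        simp
      have e2 : F p e = 0 := by
        have := he
        rwa [← D.hK0, mem_rest] at this
      have e3 : F (w (ε n) t₀) e + ε n • h (w (ε n) t₀) e = 0 := by
        have := he
        rw [← hwK n, mem_rest] at this
        exact this
      show (ε n)⁻¹ • (F (p + d n) e - F p e) = _
      rw [e1, e2, sub_zero, eq_neg_of_add_eq_zero_left e3, smul_neg,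
        inv_smul_smul₀ (hεpos n).ne']
    have hwlim : Tendsto (fun n => w (ε n) t₀) atTop (𝓝 p) := by
      rw [tendsto_iff_norm_sub_tendsto_zero]
      have h4 : Tendsto (fun n => ε n * B) atTop (𝓝 0) := by
        simpa using hεlim.mul_const B
      exact squeeze_zero (fun _ => norm_nonneg _)
        (fun n => (hw (ε n) (hεpos n) (hεlt n)).2.2.1 t₀) h4
    have h5 : Tendsto (fun n => -h (w (ε (φ n)) t₀) e) atTop (𝓝 (-h p e)) := by
      have h6 : Continuous fun q => -h q e :=
        ((continuous_apply e).comp hh.bc.smooth.continuous).neg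
      exact (h6.tendsto p).comp (hwlim.comp hφ.tendsto_atTop)
    refine tendsto_nhds_unique h2 ?_
    simp only [h3]
    exact h5
  · have hl := D.R_label hab
    rw [← S.dif_eq_zero hl]
    have h1 : Tendsto (fun n => S.dif hl (y (φ n))) atTop (𝓝 (S.dif hl y0)) :=
      ((S.dif hl).continuous.tendsto y0).comp hlim
    have h2 : ∀ n, S.dif hl (y n) = 0 := by
      intro n
      show S.dif hl ((ε n)⁻¹ • d n) = 0
      rw [map_smul]
      have e1 : S.dif hl (w (ε n) t₀) = 0 := by
        rw [S.dif_eq_zero, ← mem_coin, hwR n]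
        exact hab
      have e2 : S.dif hl p = 0 := by
        rw [S.dif_eq_zero, ← mem_coin, D.hR0]
        exact hab
      have e3 : S.dif hl (d n) = S.dif hl (w (ε n) t₀ - p) := by
        rw [dif_apply, dif_apply]
        show S.tr hl (prK K (w (ε n) t₀ - p) a) - prK K (w (ε n) t₀ - p) b = _
        rw [prK_mem K _ ha, prK_mem K _ hb]
      rw [e3, map_sub, e1, e2, sub_zero, smul_zero]
    exact tendsto_nhds_unique h1 (by simp only [h2]; exact tendsto_const_nhds)

/-- the relation `a ≈ b`: coincidence and linked -/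
theorem linked_refl (D : S.Stab F z θ T ρ t₀ C R K) (a : G.Node) : Linked R a a :=
  ⟨Network.InputIso.refl a, fun _ => D.R_refl _⟩

theorem linked_symm (D : S.Stab F z θ T ρ t₀ C R K) {a b : G.Node} (h : Linked R a b) :
    Linked R b a := by
  obtain ⟨β, hβ⟩ := h
  refine ⟨β.symm, fun i => ?_⟩
  have := hβ (β.toEquiv.symm i)
  rw [Equiv.apply_symm_apply] at this
  exact D.R_symm this

theorem linked_trans (D : S.Stab F z θ T ρ t₀ C R K) {a b c : G.Node} (h : Linked R a b)
    (k : Linked R b c) : Linked R a c := by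
  obtain ⟨β, hβ⟩ := h
  obtain ⟨γ, hγ⟩ := k
  exact ⟨β.trans γ, fun i => D.R_trans (hβ i) (hγ _)⟩

/-- Admissible bump fields take prescribed values at one state, on the nodes at rest. -/
theorem realize (D : S.Stab F z θ T ρ t₀ C R K) (u : S.Phase)
    (hu : ∀ a b, a ∈ K → b ∈ K → (a, b) ∈ R → Linked R a b → S.Eqv (u a) (u b)) :
    ∃ h : S.Phase → S.Phase, S.Pert h ∧ ∀ e ∈ K, h (z t₀) e = u e := by
  classical
  set p := z t₀ with hp
  -- representatives
  let st : Setoid G.Node :=
    ⟨fun a b => (a, b) ∈ R ∧ Linked R a b,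
      ⟨fun a => ⟨D.R_refl a, D.linked_refl a⟩,
        fun h => ⟨D.R_symm h.1, D.linked_symm h.2⟩,
        fun h k => ⟨D.R_trans h.1 k.1, D.linked_trans h.2 k.2⟩⟩⟩
  let rep : G.Node → G.Node := fun e => (Quotient.mk st e).out
  have hrep : ∀ e, (rep e, e) ∈ R ∧ Linked R (rep e) e := fun e => Quotient.mk_out (s := st) e
  have hrep2 : ∀ a b, (a, b) ∈ R → Linked R a b → rep a = rep b := by
    intro a b h1 h2
    have : Quotient.mk st a = Quotient.mk st b := Quotient.sound (s := st) ⟨h1, h2⟩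
    show (Quotient.mk st a).out = (Quotient.mk st b).out
    rw [this]
  have hrr : ∀ e, rep (rep e) = rep e := fun e => hrep2 _ _ (hrep e).1 (hrep e).2
  -- the radius
  have hr : ∀ᶠ r in 𝓝[>] (0 : ℝ), ∀ j : (Σ a : G.Node, Σ e : G.Node, G.InputIso a e),
      S.pull j.2.2 (S.arg p j.2.1) ≠ S.arg p j.1 →
        r ≤ dist (S.pull j.2.2 (S.arg p j.2.1)) (S.arg p j.1) := by
    rw [eventually_all]
    intro j
    by_cases hj : S.pull j.2.2 (S.arg p j.2.1) = S.arg p j.1
    · exact Eventually.of_forall fun r h => absurd hj h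
    · have h1 : 0 < dist (S.pull j.2.2 (S.arg p j.2.1)) (S.arg p j.1) := dist_pos.2 hj
      filter_upwards [Ioo_mem_nhdsGT h1] with r hr _
      exact hr.2.le
  obtain ⟨r, hr1, hr2⟩ := (hr.and self_mem_nhdsWithin).exists
  have hrpos : (0 : ℝ) < r := hr2
  let b : ∀ a : G.Node, ContDiffBump (S.arg p a) := fun a =>
    ⟨r / 2, r, by linarith, by linarith⟩
  let h : S.Phase → S.Phase := fun x =>
    ∑ a ∈ Finset.univ.filter (fun a => rep a = a), S.bump (b a) (u a) x
  refine ⟨h, Pert.sum _ fun a _ => S.bump_pert (b a) (u a), fun e he => ?_⟩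
  have hsum : h p e = ∑ a ∈ Finset.univ.filter (fun a => rep a = a), S.bump (b a) (u a) p e := by
    simp only [h, Finset.sum_apply]
  rw [hsum, Finset.sum_eq_single (rep e)]
  · obtain ⟨h1, β, hβ⟩ := hrep e
    have h2 : S.pull β (S.arg p e) = S.arg p (rep e) := by
      rw [pull_eq_arg, D.hR0]
      exact ⟨h1, hβ⟩
    rw [S.bump_val (b (rep e)) (u (rep e)) p e β h2]
    have h3 : rep e ∈ K := D.K_of_R (D.R_symm h1) he
    exact (S.eqv_tr _).1 (hu _ _ h3 he h1 ⟨β, hβ⟩)
  · intro a ha hne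
    apply S.bump_zero
    intro β
    apply hr1 ⟨a, e, β⟩
    intro h2
    change S.pull β (S.arg p e) = S.arg p a at h2
    rw [pull_eq_arg, D.hR0] at h2
    apply hne
    rw [Finset.mem_filter] at ha
    rw [← ha.2]
    exact hrep2 a e h2.1 ⟨β, h2.2⟩
  · intro hn
    exfalso
    apply hn
    simp [hrr]

/-- Related nodes at rest are linked. -/
theorem linked_of_rest (D : S.Stab F z θ T ρ t₀ C R K) {a b : G.Node} (hab : (a, b) ∈ R)
    (ha : a ∈ K) {v : S.St a} (hv : v ≠ 0) : Linked R a b := by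
  classical
  have hb : b ∈ K := D.K_of_R hab ha
  have hmk : ∀ (P : G.Node → G.Node → Prop), (∀ a b, P a b → (a, b) ∈ R) →
      ∃ V : Submodule ℝ S.Phase, ∀ u, u ∈ V ↔ (∀ e ∉ K, u e = 0) ∧
        ∀ a b, a ∈ K → b ∈ K → P a b → S.Eqv (u a) (u b) := by
    intro P hP
    refine ⟨{ carrier := {u | (∀ e ∉ K, u e = 0) ∧
                ∀ a b, a ∈ K → b ∈ K → P a b → S.Eqv (u a) (u b)}
              add_mem' := ?_
              zero_mem' := ?_
              smul_mem' := ?_ }, fun u => Iff.rfl⟩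
    · rintro u w ⟨h1, h2⟩ ⟨k1, k2⟩
      refine ⟨fun e he => ?_, fun a b ha hb hab => ?_⟩
      · show u e + w e = 0
        rw [h1 e he, k1 e he, add_zero]
      · have hl := D.R_label (hP a b hab)
        have e1 := (S.dif_eq_zero hl u).2 (h2 a b ha hb hab)
        have e2 := (S.dif_eq_zero hl w).2 (k2 a b ha hb hab)
        rw [← S.dif_eq_zero hl, map_add, e1, e2, add_zero]
    · refine ⟨fun e he => rfl, fun a b ha hb hab => ?_⟩
      have hl := D.R_label (hP a b hab)
      rw [← S.dif_eq_zero hl, map_zero]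
    · rintro c u ⟨h1, h2⟩
      refine ⟨fun e he => ?_, fun a b ha hb hab => ?_⟩
      · show c • u e = 0
        rw [h1 e he, smul_zero]
      · have hl := D.R_label (hP a b hab)
        have e1 := (S.dif_eq_zero hl u).2 (h2 a b ha hb hab)
        rw [← S.dif_eq_zero hl, map_smul, e1, smul_zero]
  obtain ⟨V1, hV1⟩ := hmk (fun a b => (a, b) ∈ R ∧ Linked R a b) (fun a b h => h.1)
  obtain ⟨V2, hV2⟩ := hmk (fun a b => (a, b) ∈ R) (fun a b h => h)
  have h21 : V2 ≤ V1 := by
    intro u hu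
    rw [hV2] at hu
    rw [hV1]
    exact ⟨hu.1, fun a b ha hb hab => hu.2 a b ha hb hab.1⟩
  let A : S.Phase →ₗ[ℝ] S.Phase :=
    -((prK (S := S) K).toLinearMap.comp (fderiv ℝ F (z t₀)).toLinearMap)
  have h12 : V1 ≤ V2.map A := by
    intro u hu
    rw [hV1] at hu
    obtain ⟨h, hh, hval⟩ := D.realize u (fun a b ha hb h1 h2 => hu.2 a b ha hb ⟨h1, h2⟩)
    obtain ⟨y, y1, y2, y3⟩ := D.lin h hh
    refine ⟨y, (hV2 y).2 ⟨y1, y3⟩, ?_⟩
    funext e
    show -(prK (S := S) K (fderiv ℝ F (z t₀) y) e) = u e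
    by_cases he : e ∈ K
    · rw [prK_mem K _ he, y2 e he, neg_neg, hval e he]
    · rw [prK_notMem K _ he, neg_zero, hu.1 e he]
  have hfin : Module.finrank ℝ V1 ≤ Module.finrank ℝ V2 :=
    (Submodule.finrank_mono h12).trans (Submodule.finrank_map_le A V2)
  have heq : V2 = V1 := Submodule.eq_of_le_of_finrank_le h21 hfin
  by_contra hnl
  -- test vector
  let u : S.Phase := fun e => if e ∈ K ∧ (a, e) ∈ R ∧ Linked R a e then S.vec v e else 0
  have hu1 : u ∈ V1 := by
    rw [hV1]
    refine ⟨fun e he => ?_, fun c d hc hd hcd => ?_⟩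
    · show (if e ∈ K ∧ (a, e) ∈ R ∧ Linked R a e then S.vec v e else 0) = 0
      rw [if_neg (fun h => he h.1)]
    · have hl := D.R_label hcd.1
      rw [S.eqv_tr hl]
      show S.tr hl (if c ∈ K ∧ (a, c) ∈ R ∧ Linked R a c then S.vec v c else 0) =
        (if d ∈ K ∧ (a, d) ∈ R ∧ Linked R a d then S.vec v d else 0)
      by_cases hac : (a, c) ∈ R ∧ Linked R a c
      · have had : (a, d) ∈ R ∧ Linked R a d :=
          ⟨D.R_trans hac.1 hcd.1, D.linked_trans hac.2 hcd.2⟩
        rw [if_pos ⟨hc, hac⟩, if_pos ⟨hd, had⟩, S.vec_of v (D.R_label hac.1),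
          S.vec_of v (D.R_label had.1)]
        ext i
        rfl
      · have had : ¬ ((a, d) ∈ R ∧ Linked R a d) := fun had =>
          hac ⟨D.R_trans had.1 (D.R_symm hcd.1), D.linked_trans had.2 (D.linked_symm hcd.2)⟩
        rw [if_neg (fun h => hac h.2), if_neg (fun h => had h.2), map_zero]
  rw [← heq, hV2] at hu1
  have h3 := hu1.2 a b ha hb hab
  have ea : u a = v := by
    show (if a ∈ K ∧ (a, a) ∈ R ∧ Linked R a a then S.vec v a else 0) = v
    rw [if_pos ⟨ha, D.R_refl a, D.linked_refl a⟩, S.vec_of v rfl]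
    ext i
    rfl
  have eb : u b = 0 := by
    show (if b ∈ K ∧ (a, b) ∈ R ∧ Linked R a b then S.vec v b else 0) = 0
    rw [if_neg (fun h => hnl h.2.2)]
  rw [S.eqv_tr (D.R_label hab), ea, eb] at h3
  exact hv (by simpa using h3)

/-- Related nodes with a nonzero state space are linked. -/
theorem linked (D : S.Stab F z θ T ρ t₀ C R K) {a b : G.Node} (hab : (a, b) ∈ R)
    {v : S.St a} (hv : v ≠ 0) : Linked R a b := by
  by_cases ha : a ∈ K
  · exact D.linked_of_rest hab ha hv
  · exact D.linked_of_moving hab ha hv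

/-- The polydiagonal of `R` is invariant: the coincidences at the time `t₀` hold at all times. -/
theorem coin_all (D : S.Stab F z θ T ρ t₀ C R K) {a b : G.Node} (hab : (a, b) ∈ R) (t : ℝ) :
    S.Eqv (z t a) (z t b) := by
  classical
  let V : Submodule ℝ S.Phase :=
    { carrier := {u | ∀ a b, (a, b) ∈ R → S.Eqv (u a) (u b)}
      add_mem' := by
        intro u w h1 h2 a b hab
        have hl := D.R_label hab
        have e1 := (S.dif_eq_zero hl u).2 (h1 a b hab)
        have e2 := (S.dif_eq_zero hl w).2 (h2 a b hab)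
        rw [← S.dif_eq_zero hl, map_add, e1, e2, add_zero]
      zero_mem' := by
        intro a b hab
        have hl := D.R_label hab
        rw [← S.dif_eq_zero hl, map_zero]
      smul_mem' := by
        intro c u h1 a b hab
        have hl := D.R_label hab
        have e1 := (S.dif_eq_zero hl u).2 (h1 a b hab)
        rw [← S.dif_eq_zero hl, map_smul, e1, smul_zero] }
  have hV : ∀ u, u ∈ V ↔ ∀ a b, (a, b) ∈ R → S.Eqv (u a) (u b) := fun u => Iff.rfl
  have hFV : ∀ u ∈ V, F u ∈ V := by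
    intro u hu
    rw [hV] at hu ⊢
    intro a b hab
    by_cases hv : ∃ v : S.St a, v ≠ 0
    · obtain ⟨v, hv⟩ := hv
      obtain ⟨β, hβ⟩ := D.linked hab hv
      exact D.adm.2 a b β u u (hu a b hab) fun i => hu _ _ (hβ i)
    · push Not at hv
      have hl := D.R_label hab
      rw [S.eqv_tr hl, hv (F u a), map_zero]
      have h1 := hv ((S.tr hl).symm (F u b))
      have h2 : F u b = S.tr hl 0 := by rw [← h1, LinearIsometryEquiv.apply_symm_apply]
      rw [h2, map_zero]
  obtain ⟨π, hπ⟩ : ∃ π : S.Phase →L[ℝ] S.Phase, (∀ u, π u ∈ V) ∧ ∀ u ∈ V, π u = u := by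
    obtain ⟨g, hg⟩ := V.subtype.exists_leftInverse_of_injective (by simp)
    refine ⟨LinearMap.toContinuousLinearMap (V.subtype.comp g), fun u => ?_, fun u hu => ?_⟩
    · show (g u : S.Phase) ∈ V
      exact (g u).2
    · show (g u : S.Phase) = u
      have := congrArg (fun k => k ⟨u, hu⟩) hg
      exact congrArg Subtype.val this
  obtain ⟨hπ1, hπ2⟩ := hπ
  obtain ⟨R1, hR10, hR1⟩ := periodic_bounded D.hT D.cont D.per
  obtain ⟨L, hL0, hL⟩ := lip_ball D.smooth (R1 + ‖π‖ * R1)
  let q : S.Phase →L[ℝ] S.Phase := ContinuousLinearMap.id ℝ _ - π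
  have hq : ∀ u, q u = u - π u := fun u => rfl
  have hz0 : z t₀ ∈ V := by
    rw [hV]
    intro a b hab
    exact D.R_iff.1 hab
  have hder : ∀ s, HasDerivAt (fun s => q (z s)) (q ((1 + θ) • F (z s))) s := fun s =>
    q.hasFDerivAt.comp_hasDerivAt s (D.deriv s)
  have hbound : ∀ s, ‖q ((1 + θ) • F (z s))‖ ≤ |1 + θ| * ‖q‖ * L * ‖q (z s)‖ := by
    intro s
    have h1 : q (F (π (z s))) = 0 := by
      rw [hq, hπ2 _ (hFV _ (hπ1 _)), sub_self]
    have h2 : q ((1 + θ) • F (z s)) = (1 + θ) • q (F (z s) - F (π (z s))) := by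
      rw [map_smul, map_sub, h1, sub_zero]
    have h3 : ‖π (z s)‖ ≤ ‖π‖ * R1 :=
      (π.le_opNorm _).trans (mul_le_mul_of_nonneg_left (hR1 s) (norm_nonneg _))
    have h4 : 0 ≤ ‖π‖ * R1 := by positivity
    have h5 : ‖F (z s) - F (π (z s))‖ ≤ L * ‖q (z s)‖ := by
      rw [hq]
      exact hL _ _ ((hR1 s).trans (by linarith)) (h3.trans (by linarith))
    rw [h2, norm_smul, Real.norm_eq_abs]
    calc |1 + θ| * ‖q (F (z s) - F (π (z s)))‖ ≤ |1 + θ| * (‖q‖ * (L * ‖q (z s)‖)) := by
          gcongr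
          exact (q.le_opNorm _).trans (by gcongr)
      _ = _ := by ring
  have h0 : q (z t₀) = 0 := by rw [hq, hπ2 _ hz0, sub_self]
  have h1 := eq_zero_of_deriv_le hder hbound h0 t
  rw [hq, sub_eq_zero] at h1
  have h2 : z t ∈ V := by rw [h1]; exact hπ1 _
  exact h2 a b hab

end Stab

end StateSpaces

end Pool.Agent.U603.Rig
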