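import Mathlib
import Pool.Agent.U603.Rig.Persist
import Pool.Agent.U603.Rig.Stab2

/-!
# Rigid synchrony patterns of hyperbolic periodic orbits are balanced
-/

set_option autoImplicit false
set_option linter.unusedSectionVars false

namespace Pool.Agent.U603.Rig

open Set Filter Topology MeasureTheory

section General

variable {E : Type*} [NormedAddCommGroup E] [NormedSpace ℝ E] [FiniteDimensional ℝ E]

/-- The linearisation along a hyperbolic periodic orbit. -/
theorem linData_of_hyp {f : E → E} (hf : ContDiff ℝ 1 f) {x : ℝ → E} {T : ℝ}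
    (hx : IsPeriodicOrbit f x T) (hyp : IsHyperbolic f x T) :
    ∃ Y, LinData T (fun t => fderiv ℝ f (x t)) (fun t => f (x t)) Y := by
  obtain ⟨hT, hd, hp, s, hs⟩ := hx
  obtain ⟨M, ⟨Y, hY0, hY, rfl⟩, h1, -⟩ := hyp
  have hxc : Continuous x := continuous_iff_continuousAt.2 fun t => (hd t).continuousAt
  have hAc : Continuous fun t => fderiv ℝ f (x t) := (hf.continuous_fderiv (by norm_num)).comp hxc
  have hAp : Function.Periodic (fun t => fderiv ℝ f (x t)) T := fun t => by simp only [hp t]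
  have hXp : Function.Periodic (fun t => f (x t)) T := fun t => by simp only [hp t]
  have hX : ∀ t, HasDerivAt (fun t => f (x t)) (fderiv ℝ f (x t) (f (x t))) t := fun t =>
    ((hf.differentiable (by norm_num)) (x t)).hasFDerivAt.comp_hasDerivAt t (hd t)
  obtain ⟨K, hK0, hK⟩ := periodic_bounded hT hAc hAp
  have hw : f (x 0) ≠ 0 := by
    intro h0
    have h2 := eq_zero_of_deriv_le hX (K := K) (t₀ := 0)
      (fun t => (ContinuousLinearMap.le_opNorm _ _).trans
        (mul_le_mul_of_nonneg_right (hK t) (norm_nonneg _))) h0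
    have h3 : ∀ t, HasDerivAt (fun t => x t - x 0) (f (x t)) t := fun t => (hd t).sub_const _
    have h4 := eq_zero_of_deriv_le h3 (K := 0) (t₀ := 0) (fun t => by rw [h2 t]; simp)
      (sub_self _) s
    exact hs (sub_eq_zero.1 h4)
  have hXY : ∀ t, f (x t) = Y t (f (x 0)) := by
    intro t
    have h2 : ∀ s, HasDerivAt (fun s => f (x s) - Y s (f (x 0)))
        (fderiv ℝ f (x s) (f (x s) - Y s (f (x 0)))) s := by
      intro s
      have h3 := (hY s).clm_apply (hasDerivAt_const s (f (x 0)))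
      refine ((hX s).sub h3).congr_deriv ?_
      simp
    have h3 := eq_zero_of_deriv_le h2 (K := K) (t₀ := 0)
      (fun s => (ContinuousLinearMap.le_opNorm _ _).trans
        (mul_le_mul_of_nonneg_right (hK s) (norm_nonneg _))) (by simp [hY0]) t
    exact sub_eq_zero.1 h3
  have hM : Y T (f (x 0)) = f (x 0) := by
    rw [← hXY T]
    simpa using hXp 0
  exact ⟨Y, ⟨hT, hAc, hAp, hXp, hX, hY0, hY,
    fun b => surj_of_simple (Y T : E →ₗ[ℝ] E) (f (x 0)) hw hM h1 b⟩⟩

/-- smallness in `C^1`, with a margin -/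
def Sm (δ : ℝ) (g : E → E) : Prop := ∃ δ' < δ, ∀ y, ‖g y‖ ≤ δ' ∧ ‖fderiv ℝ g y‖ ≤ δ'

theorem Sm.close {δ δm : ℝ} {f g : E → E} (hf : ContDiff ℝ 1 f) (hg : BC1 g) (h : Sm δm g)
    (hδ : δm ≤ δ) : Close δ f (fun y => f y + g y) := by
  obtain ⟨δ', h1, h2⟩ := h
  refine ⟨hf.add hg.smooth, fun y => ⟨?_, ?_⟩⟩
  · have := (h2 y).1
    simp only [add_sub_cancel_left]
    linarith
  · have e : fderiv ℝ (fun y => f y + g y) y = fderiv ℝ f y + fderiv ℝ g y :=
      fderiv_fun_add ((hf.differentiable (by norm_num)) y) (hg.diff y)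
    rw [e, add_sub_cancel_left]
    have := (h2 y).2
    linarith

theorem Sm.add_small {δ : ℝ} {g h : E → E} (hg : BC1 g) (hh : BC1 h) (hs : Sm δ g) :
    ∃ ε₀ : ℝ, 0 < ε₀ ∧ ∀ ε : ℝ, 0 < ε → ε < ε₀ → Sm δ (fun y => g y + ε • h y) := by
  obtain ⟨δ', h1, h2⟩ := hs
  obtain ⟨K, hK⟩ := hh.bdd
  have hK0 : 0 ≤ K := (norm_nonneg _).trans (hK 0).1
  refine ⟨(δ - δ') / (2 * (K + 1)), by
    have : 0 < δ - δ' := by linarith
    positivity, fun ε he1 he2 => ?_⟩
  have h3 : ε * K ≤ (δ - δ') / 2 := by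
    rw [lt_div_iff₀ (by positivity)] at he2
    nlinarith
  refine ⟨δ' + (δ - δ') / 2, by linarith, fun y => ⟨?_, ?_⟩⟩
  · refine (norm_add_le _ _).trans (add_le_add (h2 y).1 ?_)
    rw [norm_smul, Real.norm_eq_abs, abs_of_pos he1]
    exact (mul_le_mul_of_nonneg_left (hK y).1 he1.le).trans h3
  · have hε := hh.const_smul ε
    have e : fderiv ℝ (fun y => g y + ε • h y) y = fderiv ℝ g y + ε • fderiv ℝ h y := by
      have e1 := fderiv_fun_add (hg.diff y) (hε.diff y)
      have e2 : fderiv ℝ (fun y => ε • h y) y = ε • fderiv ℝ h y :=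
        fderiv_fun_const_smul (hh.diff y) ε
      rw [e2] at e1
      exact e1
    rw [e]
    refine (norm_add_le _ _).trans (add_le_add (h2 y).2 ?_)
    rw [norm_smul, Real.norm_eq_abs, abs_of_pos he1]
    exact (mul_le_mul_of_nonneg_left (hK y).2 he1.le).trans h3

end General

variable {G : Network} (S : StateSpaces G)

namespace StateSpaces

theorem coin_upper (p₀ : S.Phase) : ∀ᶠ p in 𝓝 p₀, S.coin p ⊆ S.coin p₀ := by
  have h1 : ∀ᶠ p in 𝓝 p₀, ∀ ab : G.Node × G.Node, ab ∉ S.coin p₀ → ab ∉ S.coin p := by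
    rw [eventually_all]
    rintro ⟨a, b⟩
    by_cases hab : (a, b) ∈ S.coin p₀
    · exact Eventually.of_forall fun p h => absurd hab h
    · by_cases hl : S.label (G.nodeType a) = S.label (G.nodeType b)
      · have h2 : S.dif hl p₀ ≠ 0 := by
          rw [Ne, S.dif_eq_zero, ← mem_coin]
          exact hab
        filter_upwards [(S.dif hl).continuous.continuousAt.eventually_ne h2] with p hp _
        rw [mem_coin, ← S.dif_eq_zero hl]
        exact hp
      · refine Eventually.of_forall fun p _ h => ?_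
        rw [mem_coin] at h
        exact hl h.label
  filter_upwards [h1] with p hp
  intro ab h
  by_contra hn
  exact hp ab hn h

theorem rest_upper (q₀ : S.Phase) : ∀ᶠ q in 𝓝 q₀, S.rest q ⊆ S.rest q₀ := by
  have h1 : ∀ᶠ q in 𝓝 q₀, ∀ e : G.Node, e ∉ S.rest q₀ → e ∉ S.rest q := by
    rw [eventually_all]
    intro e
    by_cases he : e ∈ S.rest q₀
    · exact Eventually.of_forall fun p h => absurd he h
    · have h2 : q₀ e ≠ 0 := by rwa [mem_rest] at he
      filter_upwards [(continuous_apply e).continuousAt.eventually_ne h2] with q hq _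
      rw [mem_rest]
      exact hq
  filter_upwards [h1] with p hp
  intro e h
  by_contra hn
  exact hp e hn h

/-- The main theorem, for perturbations in the class `Pert`. -/
theorem core (f : S.Phase → S.Phase) (hfA : S.Admissible f) (hf : ContDiff ℝ 1 f)
    (x : ℝ → S.Phase) (T : ℝ) (hx : IsPeriodicOrbit f x T) (hyp : IsHyperbolic f x T)
    (hrig : ∃ δ > 0, ∀ g : S.Phase → S.Phase, S.Pert g →
      (∀ y, ‖g y‖ < δ ∧ ‖fderiv ℝ g y‖ < δ) →
      ∀ (x' : ℝ → S.Phase) (T' : ℝ), IsPeriodicOrbit (fun y => f y + g y) x' T' → |T' - T| < δ →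
      (∀ t ∈ Set.Icc 0 T, ‖x' t - x t‖ < δ) → ∀ c d, S.Sync x c d → S.Sync x' c d)
    (c d : G.Node) (hcd : S.Sync x c d) (v : S.St c) (hv : v ≠ 0) :
    ∃ β : G.InputIso c d, ∀ e : G.Input c, S.Sync x (G.src e) (G.src (β.toEquiv e)) := by
  classical
  obtain ⟨Y, D⟩ := linData_of_hyp hf hx hyp
  obtain ⟨hT, hd, hp, s₀, hs₀⟩ := hx
  obtain ⟨δr, hδr, hrig⟩ := hrig
  have hxc : Continuous x := continuous_iff_continuousAt.2 fun t => (hd t).continuousAt
  obtain ⟨Kx, hKx0, hKx⟩ := periodic_bounded hT D.contX D.perX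
  -- choice of `η₀`
  have hs₀' : 0 < ‖x s₀ - x 0‖ := norm_pos_iff.2 (sub_ne_zero.2 hs₀)
  have hη₀ : ∀ᶠ η in 𝓝[>] (0 : ℝ), η * (1 + 2 * Kx * T + T) < δr ∧ 2 * η < ‖x s₀ - x 0‖ ∧
      ∀ ab : G.Node × G.Node, ∀ hl : S.label (G.nodeType ab.1) = S.label (G.nodeType ab.2),
        ¬ S.Sync x ab.1 ab.2 → ∃ s, 2 * η < ‖S.dif hl (x s)‖ := by
    have hlin : ∀ (k r : ℝ), 0 < r → ∀ᶠ η in 𝓝[>] (0 : ℝ), η * k < r := by
      intro k r hr
      have h1 : Tendsto (fun η : ℝ => η * k) (𝓝[>] 0) (𝓝 0) := by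
        have : Tendsto (fun η : ℝ => η * k) (𝓝 0) (𝓝 (0 * k)) :=
          (continuous_id.mul continuous_const).tendsto 0
        rw [zero_mul] at this
        exact this.mono_left nhdsWithin_le_nhds
      exact h1.eventually (gt_mem_nhds hr)
    refine (hlin _ _ hδr).and (((hlin 2 _ hs₀').mono fun η h => by linarith).and ?_)
    rw [eventually_all]
    intro ab
    by_cases hl : S.label (G.nodeType ab.1) = S.label (G.nodeType ab.2)
    · by_cases hs : S.Sync x ab.1 ab.2
      · exact Eventually.of_forall fun η _ h => absurd hs h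
      · have hs' := hs
        unfold Sync at hs'
        push Not at hs'
        obtain ⟨s, hs'⟩ := hs'
        rw [← S.dif_eq_zero hl] at hs'
        filter_upwards [hlin 2 _ (norm_pos_iff.2 hs')] with η hη _ _
        exact ⟨s, by linarith⟩
    · exact Eventually.of_forall fun η h => absurd h hl
  obtain ⟨η₀, ⟨hη1, hη2, hη3⟩, hη₀pos⟩ := (hη₀.and self_mem_nhdsWithin).exists
  have hη₀pos' : (0 : ℝ) < η₀ := hη₀pos
  obtain ⟨η, δ, C, hη, hηη₀, hηh, hδ, hC, Z, Θ, hZ, hLip⟩ := persist hf hd hp D η₀ hη₀pos'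
  set δm := min δ δr with hδm
  have hδmpos : 0 < δm := lt_min hδ hδr
  have hclose : ∀ g, S.Pert g → Sm δm g → Close δ f (fun y => f y + g y) := fun g hg hs =>
    hs.close hf hg.bc (min_le_left _ _)
  -- use of rigidity
  have hsync : ∀ g, S.Pert g → Sm δm g → ∀ a b, S.Sync x a b → ∀ t,
      S.Eqv (Z (fun y => f y + g y) t a) (Z (fun y => f y + g y) t b) := by
    intro g hg hs a b hab t
    obtain ⟨h1, h2, h3, h4⟩ := hZ _ (hclose g hg hs)
    set z := Z (fun y => f y + g y) with hz
    set θ := Θ (fun y => f y + g y) with hθ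
    have hθ1 : |θ| ≤ 1 / 2 := h1.trans hηh
    have hθ2 : 1 / 2 ≤ 1 + θ := by linarith [(abs_le.1 hθ1).1]
    have hθ3 : 0 < 1 + θ := by linarith
    let x' : ℝ → S.Phase := fun t => z (t / (1 + θ))
    have hper : IsPeriodicOrbit (fun y => f y + g y) x' ((1 + θ) * T) := by
      refine ⟨by positivity, fun t => ?_, fun t => ?_, ?_⟩
      · have h5 : HasDerivAt (fun t : ℝ => t / (1 + θ)) (1 / (1 + θ)) t :=
          (hasDerivAt_id t).div_const _
        have h6 := (h4 (t / (1 + θ))).scomp t h5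
        refine h6.congr_deriv ?_
        rw [smul_smul, one_div, inv_mul_cancel₀ hθ3.ne', one_smul]
      · show z ((t + (1 + θ) * T) / (1 + θ)) = z (t / (1 + θ))
        have : (t + (1 + θ) * T) / (1 + θ) = t / (1 + θ) + T := by field_simp
        rw [this, h3]
      · by_contra hcon
        push Not at hcon
        have h5 : ∀ s, z s = z 0 := by
          intro s
          have := hcon ((1 + θ) * s)
          simp only [x', zero_div] at this
          rwa [mul_div_cancel_left₀ _ hθ3.ne'] at this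
        have h6 := h2 s₀
        have h7 := h2 0
        rw [h5 s₀] at h6
        have h8 : ‖x s₀ - x 0‖ ≤ η + η := by
          calc ‖x s₀ - x 0‖ = ‖(z 0 - x 0) - (z 0 - x s₀)‖ := by congr 1; abel
            _ ≤ _ := norm_sub_le _ _
            _ ≤ _ := add_le_add h7 h6
        linarith
    obtain ⟨δ', hδ', hsm⟩ := hs
    have h5 := hrig g hg (fun y => ⟨?_, ?_⟩) x' ((1 + θ) * T) hper ?_ ?_ a b hab ((1 + θ) * t)
    · simp only [x'] at h5
      rwa [mul_div_cancel_left₀ _ hθ3.ne'] at h5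
    · exact (hsm y).1.trans_lt (hδ'.trans_le (min_le_right _ _))
    · exact (hsm y).2.trans_lt (hδ'.trans_le (min_le_right _ _))
    · have e : (1 + θ) * T - T = θ * T := by ring
      rw [e, abs_mul, abs_of_pos hT]
      calc |θ| * T ≤ η₀ * T := by gcongr; exact h1.trans hηη₀
        _ ≤ η₀ * (1 + 2 * Kx * T + T) := by
            have : 0 ≤ 1 + 2 * Kx * T := by positivity
            gcongr
            linarith
        _ < δr := hη1
    · intro t ht
      have h6 : ∀ u w, ‖x u - x w‖ ≤ Kx * |u - w| := by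
        intro u w
        have := convex_univ.norm_image_sub_le_of_norm_hasDerivWithin_le (f := x) (C := Kx)
          (f' := fun t => f (x t)) (fun t _ => (hd t).hasDerivWithinAt) (fun t _ => hKx t)
          (mem_univ w) (mem_univ u)
        simpa using this
      have h7 : |t / (1 + θ) - t| ≤ T * (2 * η) := by
        have e : t / (1 + θ) - t = -(t * θ / (1 + θ)) := by field_simp; ring
        rw [e, abs_neg, abs_div, abs_mul, abs_of_nonneg ht.1, abs_of_pos hθ3,
          div_le_iff₀ hθ3]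
        calc t * |θ| ≤ T * η := mul_le_mul ht.2 h1 (abs_nonneg _) hT.le
          _ = T * (2 * η) * (1 / 2) := by ring
          _ ≤ T * (2 * η) * (1 + θ) := by gcongr
      calc ‖x' t - x t‖ = ‖(z (t / (1 + θ)) - x (t / (1 + θ))) + (x (t / (1 + θ)) - x t)‖ := by
            simp [x']
        _ ≤ _ := norm_add_le _ _
        _ ≤ η + Kx * (T * (2 * η)) :=
            add_le_add (h2 _) ((h6 _ _).trans (mul_le_mul_of_nonneg_left h7 hKx0))
        _ = η * (1 + 2 * Kx * T) := by ring
        _ ≤ η₀ * (1 + 2 * Kx * T + T) :=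
            mul_le_mul hηη₀ (by linarith) (by positivity) hη₀pos'.le
        _ < δr := hη1
  -- the minimiser
  let N : (S.Phase → S.Phase) × ℝ → ℕ := fun p =>
    (S.coin (Z (fun y => f y + p.1 y) p.2)).card +
      (S.rest ((fun y => f y + p.1 y) (Z (fun y => f y + p.1 y) p.2))).card
  have hne : {p : (S.Phase → S.Phase) × ℝ | S.Pert p.1 ∧ Sm δm p.1}.Nonempty := by
    have hδ2 : (0 : ℝ) ≤ δm / 2 := by linarith
    refine ⟨(fun _ => 0, 0), Pert.zero, δm / 2, by linarith, fun y => ⟨?_, ?_⟩⟩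
    · show ‖(0 : S.Phase)‖ ≤ δm / 2
      rw [norm_zero]
      exact hδ2
    · show ‖fderiv ℝ (fun _ : S.Phase => (0 : S.Phase)) y‖ ≤ δm / 2
      rw [fderiv_const_apply, norm_zero]
      exact hδ2
  obtain ⟨⟨gs, ts⟩, ⟨hgs1, hgs2⟩, hmin⟩ := (measure N).wf.has_min _ hne
  have hmin' : ∀ g t, S.Pert g → Sm δm g → N (gs, ts) ≤ N (g, t) := by
    intro g t h1 h2
    have := hmin (g, t) ⟨h1, h2⟩
    exact not_lt.1 this
  set F : S.Phase → S.Phase := fun y => f y + gs y with hF
  set z := Z F with hz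
  obtain ⟨hθ1, hzx, hzp, hzd⟩ := hZ F (hclose gs hgs1 hgs2)
  have hθpos : ∀ g, S.Pert g → Sm δm g → 1 + Θ (fun y => f y + g y) ≠ 0 := by
    intro g h1 h2
    have h3 := (hZ _ (hclose g h1 h2)).1
    have := (abs_le.1 (h3.trans hηh)).1
    linarith
  have hFC : ContDiff ℝ 1 F := hf.add hgs1.bc.smooth
  have hzc : Continuous z := continuous_iff_continuousAt.2 fun t => (hzd t).continuousAt
  -- neighbourhoods
  obtain ⟨ρ1, hρ1, hcoin⟩ := Metric.eventually_nhds_iff.1 (S.coin_upper (z ts))
  obtain ⟨ρ2, hρ2, hrest⟩ := Metric.eventually_nhds_iff.1 (S.rest_upper (F (z ts)))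
  obtain ⟨ρ3, hρ3, hFc⟩ := Metric.continuousAt_iff.1 (hFC.continuous.continuousAt (x := z ts))
    (ρ2 / 2) (by positivity)
  obtain ⟨ρ, hρ, hzct⟩ := Metric.continuousAt_iff.1 (hzc.continuousAt (x := ts))
    (min ρ1 ρ3 / 2) (by positivity)
  have hstab : ∀ g, S.Pert g → Sm δm g → ∀ t, |t - ts| < ρ →
      ‖Z (fun y => f y + g y) t - z t‖ < min ρ1 ρ3 / 2 →
      ‖g (Z (fun y => f y + g y) t) - gs (Z (fun y => f y + g y) t)‖ < ρ2 / 2 →
      S.coin (Z (fun y => f y + g y) t) = S.coin (z ts) ∧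
      S.rest ((fun y => f y + g y) (Z (fun y => f y + g y) t)) = S.rest (F (z ts)) := by
    intro g hg1 hg2 t ht h1 h2
    have h3 : dist (Z (fun y => f y + g y) t) (z ts) < min ρ1 ρ3 := by
      have h4 : dist (z t) (z ts) < min ρ1 ρ3 / 2 := hzct (by rwa [Real.dist_eq])
      calc dist (Z (fun y => f y + g y) t) (z ts) ≤
          dist (Z (fun y => f y + g y) t) (z t) + dist (z t) (z ts) := dist_triangle _ _ _
        _ < min ρ1 ρ3 / 2 + min ρ1 ρ3 / 2 := add_lt_add (by rwa [dist_eq_norm]) h4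
        _ = _ := by ring
    have h4 := hcoin (h3.trans_le (min_le_left _ _))
    have h5 : dist ((fun y => f y + g y) (Z (fun y => f y + g y) t)) (F (z ts)) < ρ2 := by
      have h6 := hFc (h3.trans_le (min_le_right _ _))
      have h7 : dist ((fun y => f y + g y) (Z (fun y => f y + g y) t))
          (F (Z (fun y => f y + g y) t)) < ρ2 / 2 := by
        rw [dist_eq_norm]
        simpa [hF] using h2
      calc _ ≤ _ := dist_triangle _ (F (Z (fun y => f y + g y) t)) _
        _ < ρ2 / 2 + ρ2 / 2 := add_lt_add h7 h6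
        _ = ρ2 := by ring
    have h6 := hrest h5
    have h7 := hmin' g t hg1 hg2
    have c1 := Finset.card_le_card h4
    have c2 := Finset.card_le_card h6
    have h8 : (S.coin (z ts)).card + (S.rest (F (z ts))).card ≤
        (S.coin (Z (fun y => f y + g y) t)).card +
        (S.rest ((fun y => f y + g y) (Z (fun y => f y + g y) t))).card := h7
    exact ⟨Finset.eq_of_subset_of_card_le h4 (by omega),
      Finset.eq_of_subset_of_card_le h6 (by omega)⟩
  have hFA : S.Admissible F := hfA.add S (hgs1.adm.admissible S)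
  have hSt : S.Stab F z (Θ F) T ρ ts C (S.coin (z ts)) (S.rest (F (z ts))) := by
    refine ⟨hFA, hFC, hθpos gs hgs1 hgs2, hT, hC, hρ, hzd, hzp, ?_, ?_, ?_⟩
    · intro t ht
      exact (hstab gs hgs1 hgs2 t ht (by
        have : (0 : ℝ) < min ρ1 ρ3 / 2 := by positivity
        simpa [hz, hF] using this) (by simpa using by positivity)).1
    · intro t ht
      exact (hstab gs hgs1 hgs2 t ht (by
        have : (0 : ℝ) < min ρ1 ρ3 / 2 := by positivity
        simpa [hz, hF] using this) (by simpa using by positivity)).2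
    · intro h hh
      obtain ⟨ε1, hε1, hsm⟩ := Sm.add_small hgs1.bc hh.bc hgs2
      obtain ⟨Kh, hKh⟩ := hh.bc.bdd
      have hKh0 : 0 ≤ Kh := (norm_nonneg _).trans (hKh 0).1
      set J := ∫ s in (0 : ℝ)..T, ‖h (z s)‖ with hJ
      have hJ0 : 0 ≤ J := intervalIntegral.integral_nonneg hT.le fun s _ => norm_nonneg _
      let ε₀ : ℝ := min ε1 (min (min ρ1 ρ3 / 2 / (C * J + 1)) (ρ2 / 2 / (Kh + 1)))
      have hε₀ : 0 < ε₀ := by
        have h1 : (0 : ℝ) < min ρ1 ρ3 := lt_min hρ1 hρ3
        have h2 : 0 ≤ C * J := mul_nonneg hC hJ0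
        exact lt_min hε1 (lt_min (by positivity) (by positivity))
      refine ⟨fun ε => Z (fun y => f y + (gs y + ε • h y)), fun ε => Θ (fun y => f y + (gs y + ε • h y)),
        ε₀, hε₀, fun ε he1 he2 => ?_⟩
      have hP : S.Pert (fun y => gs y + ε • h y) := hgs1.add (hh.smul ε)
      have hS : Sm δm (fun y => gs y + ε • h y) := hsm ε he1 (he2.trans_le (min_le_left _ _))
      have hbound : ∀ t, ‖Z (fun y => f y + (gs y + ε • h y)) t - z t‖ ≤ ε * (C * J) := by
        intro t
        have h1 := hLip _ _ (hclose _ hP hS) (hclose gs hgs1 hgs2) t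
        refine h1.trans (le_of_eq ?_)
        have h2 : ∀ s, ‖(f (z s) + (gs (z s) + ε • h (z s))) - (f (z s) + gs (z s))‖ =
            ε * ‖h (z s)‖ := by
          intro s
          have : (f (z s) + (gs (z s) + ε • h (z s))) - (f (z s) + gs (z s)) = ε • h (z s) := by
            abel
          rw [this, norm_smul, Real.norm_eq_abs, abs_of_pos he1]
        have h3 : ∫ s in (0 : ℝ)..T, ‖(f (z s) + (gs (z s) + ε • h (z s))) -
            (f (z s) + gs (z s))‖ = ε * J := by
          simp only [h2]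
          rw [intervalIntegral.integral_const_mul]
        show C * (∫ s in (0 : ℝ)..T, ‖(f (z s) + (gs (z s) + ε • h (z s))) -
            (f (z s) + gs (z s))‖) = _
        rw [h3]
        ring
      refine ⟨hθpos _ hP hS, fun t => ?_, hbound, fun t ht => ?_⟩
      · have h1 := (hZ _ (hclose _ hP hS)).2.2.2 t
        refine h1.congr_deriv ?_
        simp only [hF]
        rw [add_assoc]
      · have hCJ : 0 ≤ C * J := mul_nonneg hC hJ0
        have h1 : ε * (C * J) < min ρ1 ρ3 / 2 := by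
          have h2 : ε < min ρ1 ρ3 / 2 / (C * J + 1) :=
            he2.trans_le ((min_le_right _ _).trans (min_le_left _ _))
          rw [lt_div_iff₀ (by positivity)] at h2
          nlinarith
        have h3 : ε * Kh < ρ2 / 2 := by
          have h2 : ε < ρ2 / 2 / (Kh + 1) :=
            he2.trans_le ((min_le_right _ _).trans (min_le_right _ _))
          rw [lt_div_iff₀ (by positivity)] at h2
          nlinarith
        have h4 := hstab _ hP hS t ht ((hbound t).trans_lt h1) (by
          rw [add_sub_cancel_left, norm_smul, Real.norm_eq_abs, abs_of_pos he1]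
          exact (mul_le_mul_of_nonneg_left (hKh _).1 he1.le).trans_lt h3)
        refine ⟨h4.1, ?_⟩
        have h5 := h4.2
        simp only [hF]
        rw [add_assoc]
        exact h5
  -- conclusion
  have hcdR : (c, d) ∈ S.coin (z ts) := by
    rw [mem_coin]
    exact hsync gs hgs1 hgs2 c d hcd ts
  obtain ⟨β, hβ⟩ := hSt.linked hcdR hv
  refine ⟨β, fun e => ?_⟩
  have he := hβ e
  have hl := hSt.R_label he
  by_contra hns
  obtain ⟨s, hs⟩ := hη3 (G.src e, G.src (β.toEquiv e)) hl hns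
  have h1 := hSt.coin_all he s
  rw [← S.dif_eq_zero hl] at h1
  have h2 : ‖S.dif hl (x s)‖ ≤ 2 * η := by
    have e1 : S.dif hl (x s) = -(S.dif hl (z s - x s)) := by
      rw [map_sub, h1]; simp
    rw [e1, norm_neg, dif_apply]
    refine (norm_sub_le _ _).trans ?_
    rw [LinearIsometryEquiv.norm_map]
    have h3 := norm_le_pi_norm (z s - x s) (G.src e)
    have h4 := norm_le_pi_norm (z s - x s) (G.src (β.toEquiv e))
    have h5 := hzx s
    linarith
  have h6 : 2 * η ≤ 2 * η₀ := by linarith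
  exact absurd hs (not_lt.2 (h2.trans h6))

end StateSpaces

end Pool.Agent.U603.Rig
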